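import Pool.Agent.T6.H42U.NBody

/-!
# The energy of the trial states
-/

set_option autoImplicit false
set_option linter.unusedSectionVars false

noncomputable section

namespace Pool.Agent.T6.H42U

open MeasureTheory Pool.Agent.T6.H42
open scoped ContDiff FourierTransform SchwartzMap ComplexConjugate ENNReal

variable {D : Type*} [DecidableEq D] [Fintype D]

section scalar

variable {N : ℕ} (hN : 2 ≤ N) (hM : Fintype.card D ≤ N) {ε : ℝ} (hε : ε ^ 2 = 1 / (8 * N))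

include hN hM hε

theorem a_bounds (θ' θ : D → Bool) :
    7 / 8 ≤ 1 + ε ^ 2 * XX θ' θ ∧ 1 + ε ^ 2 * XX θ' θ ≤ 9 / 8 := by
  have hN0 : (0 : ℝ) < N := by exact_mod_cast (by omega : 0 < N)
  have hM' : (Fintype.card D : ℝ) ≤ N := by exact_mod_cast hM
  have h1 := abs_le.mp (XX_abs θ' θ)
  have h2 : ε ^ 2 * N = 1 / 8 := by
    rw [hε]
    field_simp
  have h3 : 0 ≤ ε ^ 2 := sq_nonneg ε
  constructor <;> nlinarith

theorem ZZ_pos (m : ℕ) : 0 < ZZ D ε m := by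
  unfold ZZ
  apply Finset.sum_pos _ Finset.univ_nonempty
  intro θ' _
  apply Finset.sum_pos _ Finset.univ_nonempty
  intro θ _
  have := (a_bounds hN hM hε θ' θ).1
  exact pow_pos (by linarith) _

theorem ZZ_up (m : ℕ) : ZZ D ε m ≤ (8 / 7) * ZZ D ε (m + 1) := by
  unfold ZZ
  rw [Finset.mul_sum]
  apply Finset.sum_le_sum
  intro θ' _
  rw [Finset.mul_sum]
  apply Finset.sum_le_sum
  intro θ _
  have h := (a_bounds hN hM hε θ' θ).1
  have h2 : 0 < (1 + ε ^ 2 * XX θ' θ) ^ m := pow_pos (by linarith) _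
  have h3 : (1 + ε ^ 2 * XX θ' θ) ^ (m + 1)
    = (1 + ε ^ 2 * XX θ' θ) ^ m * (1 + ε ^ 2 * XX θ' θ) := pow_succ _ _
  rw [h3]
  nlinarith

theorem ZZ_down (m : ℕ) : ZZ D ε (m + 1) ≤ (9 / 8) * ZZ D ε m := by
  unfold ZZ
  rw [Finset.mul_sum]
  apply Finset.sum_le_sum
  intro θ' _
  rw [Finset.mul_sum]
  apply Finset.sum_le_sum
  intro θ _
  have h := (a_bounds hN hM hε θ' θ).2
  have h1 := (a_bounds hN hM hε θ' θ).1
  have h2 : 0 < (1 + ε ^ 2 * XX θ' θ) ^ m := pow_pos (by linarith) _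
  have h3 : (1 + ε ^ 2 * XX θ' θ) ^ (m + 1)
    = (1 + ε ^ 2 * XX θ' θ) ^ m * (1 + ε ^ 2 * XX θ' θ) := pow_succ _ _
  rw [h3]
  nlinarith

theorem X_sum (m : ℕ) (hm : m ≤ N) :
    ∑ θ' : D → Bool, ∑ θ : D → Bool, XX θ' θ * (1 + ε ^ 2 * XX θ' θ) ^ m
      ≤ (Fintype.card D / 2) * ZZ D ε m := by
  have hN0 : (0 : ℝ) < N := by exact_mod_cast (by omega : 0 < N)
  have hM' : (Fintype.card D : ℝ) ≤ N := by exact_mod_cast hM
  have hm' : (m : ℝ) ≤ N := by exact_mod_cast hm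
  have h2 : ε ^ 2 * N = 1 / 8 := by
    rw [hε]
    field_simp
  have h3 : 0 ≤ ε ^ 2 := sq_nonneg ε
  have h := X_bound (D := D) h3 (by nlinarith) m
  refine h.trans ?_
  have hZ := ZZ_pos hN hM hε m
  have h4 : 4 * ε ^ 2 * m ≤ 1 / 2 := by nlinarith
  have h5 : (0 : ℝ) ≤ Fintype.card D := Nat.cast_nonneg _
  have h6 : 4 * ε ^ 2 * m * Fintype.card D ≤ Fintype.card D / 2 := by nlinarith
  exact mul_le_mul_of_nonneg_right h6 hZ.le

theorem KK_le {k0 kG : ℝ} (h0 : 0 ≤ k0) (hG : 0 ≤ kG) :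
    N * KK D ε k0 kG (N - 1) ≤ (2 * N * k0 + kG * Fintype.card D / 8) * ZZ D ε N := by
  have hN0 : (0 : ℝ) < N := by exact_mod_cast (by omega : 0 < N)
  have h2 : ε ^ 2 * N = 1 / 8 := by
    rw [hε]
    field_simp
  have h3 : 0 ≤ ε ^ 2 := sq_nonneg ε
  have h1 : KK D ε k0 kG (N - 1) = k0 * ZZ D ε (N - 1) + kG * ε ^ 2 *
      ∑ θ' : D → Bool, ∑ θ : D → Bool, XX θ' θ * (1 + ε ^ 2 * XX θ' θ) ^ (N - 1) := by
    unfold KK ZZ
    simp_rw [Finset.mul_sum]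
    rw [← Finset.sum_add_distrib]
    apply Finset.sum_congr rfl
    intro θ' _
    rw [← Finset.sum_add_distrib]
    apply Finset.sum_congr rfl
    intro θ _
    ring
  have h4 := X_sum (D := D) hN hM hε (N - 1) (by omega)
  have h5 := ZZ_up (D := D) hN hM hε (N - 1)
  rw [Nat.sub_add_cancel (by omega : 1 ≤ N)] at h5
  have h6 := ZZ_pos (D := D) hN hM hε N
  have h7 : (0 : ℝ) ≤ Fintype.card D := Nat.cast_nonneg _
  have h8 : ∑ θ' : D → Bool, ∑ θ : D → Bool, XX θ' θ * (1 + ε ^ 2 * XX θ' θ) ^ (N - 1)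
      ≤ Fintype.card D * ZZ D ε N := by nlinarith
  rw [h1, mul_add]
  have h9 : N * (k0 * ZZ D ε (N - 1)) ≤ 2 * N * k0 * ZZ D ε N := by
    have : k0 * ZZ D ε (N - 1) ≤ k0 * (2 * ZZ D ε N) :=
      mul_le_mul_of_nonneg_left (by linarith) h0
    nlinarith
  have h10 : N * (kG * ε ^ 2 *
      ∑ θ' : D → Bool, ∑ θ : D → Bool, XX θ' θ * (1 + ε ^ 2 * XX θ' θ) ^ (N - 1))
      ≤ kG * Fintype.card D / 8 * ZZ D ε N := by
    have e1 : N * (kG * ε ^ 2 *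
      ∑ θ' : D → Bool, ∑ θ : D → Bool, XX θ' θ * (1 + ε ^ 2 * XX θ' θ) ^ (N - 1))
      = (kG / 8) * ∑ θ' : D → Bool, ∑ θ : D → Bool, XX θ' θ * (1 + ε ^ 2 * XX θ' θ) ^ (N - 1) := by
      have : N * (kG * ε ^ 2 *
        ∑ θ' : D → Bool, ∑ θ : D → Bool, XX θ' θ * (1 + ε ^ 2 * XX θ' θ) ^ (N - 1))
        = (kG * (ε ^ 2 * N)) * ∑ θ' : D → Bool, ∑ θ : D → Bool,
          XX θ' θ * (1 + ε ^ 2 * XX θ' θ) ^ (N - 1) := by ring
      rw [this, h2]
      ring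
    rw [e1]
    calc (kG / 8) * ∑ θ' : D → Bool, ∑ θ : D → Bool, XX θ' θ * (1 + ε ^ 2 * XX θ' θ) ^ (N - 1)
        ≤ (kG / 8) * (Fintype.card D * ZZ D ε N) :=
          mul_le_mul_of_nonneg_left h8 (by positivity)
      _ = _ := by ring
  linarith

theorem PP_ge : (Fintype.card D / 4) * ZZ D ε N ≤ PP D ε (N - 2) := by
  have h4 := X_sum (D := D) hN hM hε (N - 2) (by omega)
  have h5 := ZZ_down (D := D) hN hM hε (N - 2)
  have h5' := ZZ_down (D := D) hN hM hε (N - 2 + 1)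
  rw [show N - 2 + 1 + 1 = N by omega] at h5'
  have h6 := ZZ_pos (D := D) hN hM hε (N - 2)
  have h7 : (0 : ℝ) ≤ Fintype.card D := Nat.cast_nonneg _
  have h1 : PP D ε (N - 2) = Fintype.card D * ZZ D ε (N - 2) -
      ∑ θ' : D → Bool, ∑ θ : D → Bool, XX θ' θ * (1 + ε ^ 2 * XX θ' θ) ^ (N - 2) := by
    unfold PP ZZ
    simp_rw [Finset.mul_sum]
    rw [← Finset.sum_sub_distrib]
    apply Finset.sum_congr rfl
    intro θ' _
    rw [← Finset.sum_sub_distrib]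
    apply Finset.sum_congr rfl
    intro θ _
    ring
  rw [h1]
  have h8 : ZZ D ε N ≤ 2 * ZZ D ε (N - 2) := by linarith
  have h9 : (Fintype.card D : ℝ) * ZZ D ε N ≤ Fintype.card D * (2 * ZZ D ε (N - 2)) :=
    mul_le_mul_of_nonneg_left h8 h7
  linarith

end scalar

section normalised

theorem kin_toLp {N : ℕ} {α : ℝ} (S : 𝓢(Cfg N, ℂ))
    (hS : Integrable (fun ξ => (∑ i, wt α (pos ξ i)) * ‖(𝓕 S : 𝓢(Cfg N, ℂ)) ξ‖ ^ 2)) :
    kin α (S.toLp 2 : Wave N)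
      = ENNReal.ofReal (∫ ξ, (∑ i, wt α (pos ξ i)) * ‖(𝓕 S : 𝓢(Cfg N, ℂ)) ξ‖ ^ 2) := by
  rw [ofReal_integral_eq_lintegral_ofReal hS]
  · unfold kin
    rw [SchwartzMap.toLp_fourier_eq]
    apply lintegral_congr_ae
    filter_upwards [(𝓕 S : 𝓢(Cfg N, ℂ)).coeFn_toLp 2] with ξ hξ
    rw [hξ]
    rfl
  · refine Filter.Eventually.of_forall fun ξ => ?_
    exact mul_nonneg (Finset.sum_nonneg fun i _ => wt_nonneg α _) (sq_nonneg _)

theorem norm_toLp_sq {N : ℕ} (S : 𝓢(Cfg N, ℂ)) :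
    ‖(S.toLp 2 : Wave N)‖ ^ 2 = ∫ x, ‖S x‖ ^ 2 := by
  have h := SchwartzMap.norm_toLp' (f := S) (p := 2) (μ := (volume : Measure (Cfg N)))
    (by norm_num) (by norm_num)
  rw [h]
  have h2 : ((2 : ℝ≥0∞).toReal)⁻¹ = (1 / 2 : ℝ) := by norm_num
  rw [h2, ← Real.sqrt_eq_rpow, Real.sq_sqrt]
  · congr 1
    funext x
    norm_num
  · apply integral_nonneg
    intro x
    positivity

end normalised

/-- **The energy of the trial state.** -/
theorem nbody {N : ℕ} (hN : 2 ≤ N) (hM : Fintype.card D ≤ N) {f : Option D → E3 → ℂ}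
    (hf : Modes f) {α : ℝ} (hα : 0 ≤ α) {k0 kG w : ℝ} (hk0 : 0 ≤ k0) (hkG : 0 ≤ kG) (hw0 : 0 ≤ w)
    (h0 : kf α (f none) (f none) = k0) (hG : ∀ B, kf α (f (some B)) (f (some B)) = kG)
    (hw : ∀ B, cf (gg f B) (gg f B) = w) :
    ∃ e : Fin N → ℝ, IsCharge e ∧ ∃ ψ : Wave N,
      ‖ψ‖ = 1 ∧ kin α ψ ≠ ⊤ ∧ Integrable (fun x => coul e x * ‖ψ x‖ ^ 2) ∧
      (kin α ψ).toReal + pot e ψ
        ≤ 2 * N * k0 + kG * Fintype.card D / 8 - N * w * Fintype.card D / 64 := by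
  have hN0 : (0 : ℝ) < N := by exact_mod_cast (by omega : 0 < N)
  have hN2 : (2 : ℝ) ≤ N := by exact_mod_cast hN
  set ε : ℝ := Real.sqrt (1 / (8 * N)) with hεdef
  have hε : ε ^ 2 = 1 / (8 * N) := Real.sq_sqrt (by positivity)
  obtain ⟨b, hb⟩ := exists_charge (N := N) hf ε hw
  set S : 𝓢(Cfg N, ℂ) := SS hf ε b with hSdef
  set Z : ℝ := ZZ D ε N with hZdef
  have hZ : 0 < Z := ZZ_pos hN hM hε N
  set c : ℝ := (Real.sqrt Z)⁻¹ with hcdef
  have hc : c ^ 2 = Z⁻¹ := by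
    rw [hcdef, inv_pow, Real.sq_sqrt hZ.le]
  set T : 𝓢(Cfg N, ℂ) := (c : ℂ) • S with hTdef
  have hT : ∀ x, ‖T x‖ ^ 2 = c ^ 2 * ‖S x‖ ^ 2 := by
    intro x
    rw [hTdef, smul_apply, norm_smul, mul_pow, Complex.norm_real, Real.norm_eq_abs,
      sq_abs]
  have hFT : ∀ ξ, ‖(𝓕 T : 𝓢(Cfg N, ℂ)) ξ‖ ^ 2 = c ^ 2 * ‖(𝓕 S : 𝓢(Cfg N, ℂ)) ξ‖ ^ 2 := by
    intro ξ
    have : (𝓕 T : 𝓢(Cfg N, ℂ)) = (c : ℂ) • (𝓕 S : 𝓢(Cfg N, ℂ)) := by
      rw [hTdef, FourierTransform.fourier_smul]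
    rw [this, smul_apply, norm_smul, mul_pow, Complex.norm_real, Real.norm_eq_abs,
      sq_abs]
  have hkin : kin α (T.toLp 2 : Wave N) = ENNReal.ofReal (c ^ 2 * (N * KK D ε k0 kG (N - 1))) := by
    have h1 : (fun ξ : Cfg N => (∑ i, wt α (pos ξ i)) * ‖(𝓕 T : 𝓢(Cfg N, ℂ)) ξ‖ ^ 2)
        = fun ξ => c ^ 2 * ((∑ i, wt α (pos ξ i)) * ‖(𝓕 S : 𝓢(Cfg N, ℂ)) ξ‖ ^ 2) := by
      funext ξ
      rw [hFT]
      ring
    rw [kin_toLp T (by rw [h1]; exact (SS_kin_integrable hf ε b hα).const_mul _), h1,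
      integral_const_mul, SS_kin hf ε b hα h0 hG]
  have hae : (fun x => coul (fun i => sg (b i)) x * ‖(T.toLp 2 : Wave N) x‖ ^ 2)
      =ᵐ[volume] fun x => c ^ 2 * ∑ i : Fin N, ∑ j : Fin N, if i < j then
        sg (b i) * sg (b j) * (‖pos x i - pos x j‖⁻¹ * ‖S x‖ ^ 2) else 0 := by
    filter_upwards [T.coeFn_toLp 2] with x hx
    rw [hx, hT]
    unfold coul
    rw [Finset.sum_mul, Finset.mul_sum]
    apply Finset.sum_congr rfl
    intro i _
    rw [Finset.sum_mul, Finset.mul_sum]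
    apply Finset.sum_congr rfl
    intro j _
    split_ifs with hij
    · ring
    · ring
  have hI : ∀ i j : Fin N, Integrable (fun x : Cfg N => if i < j then
        sg (b i) * sg (b j) * (‖pos x i - pos x j‖⁻¹ * ‖S x‖ ^ 2) else 0) := by
    intro i j
    split_ifs with hij
    · exact (SS_pair hf ε b hij.ne).1.const_mul _
    · exact integrable_zero _ _ _
  have hI2 : Integrable (fun x : Cfg N => c ^ 2 * ∑ i : Fin N, ∑ j : Fin N, if i < j then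
        sg (b i) * sg (b j) * (‖pos x i - pos x j‖⁻¹ * ‖S x‖ ^ 2) else 0) :=
    (integrable_finsetSum _ fun i _ => integrable_finsetSum _ fun j _ => hI i j).const_mul _
  have hpot : pot (fun i => sg (b i)) (T.toLp 2 : Wave N) = c ^ 2 * PE hf ε b := by
    unfold pot
    rw [integral_congr_ae hae, integral_const_mul,
      integral_finsetSum _ fun i _ => integrable_finsetSum _ fun j _ => hI i j]
    congr 1
    unfold PE
    apply Finset.sum_congr rfl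
    intro i _
    rw [integral_finsetSum _ fun j _ => hI i j]
    apply Finset.sum_congr rfl
    intro j _
    split_ifs with hij
    · rw [integral_const_mul]
    · simp
  refine ⟨fun i => sg (b i), ?_, (T.toLp 2 : Wave N), ?_, ?_, ?_, ?_⟩
  · intro i
    change sg (b i) = 1 ∨ sg (b i) = -1
    cases b i <;> simp [sg]
  · have h1 : ‖(T.toLp 2 : Wave N)‖ ^ 2 = 1 := by
      rw [norm_toLp_sq]
      simp_rw [hT]
      rw [integral_const_mul, SS_norm, hc]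
      exact inv_mul_cancel₀ hZ.ne'
    have h2 : 0 ≤ ‖(T.toLp 2 : Wave N)‖ := norm_nonneg _
    nlinarith
  · rw [hkin]
    exact ENNReal.ofReal_ne_top
  · exact (integrable_congr hae).mpr hI2
  · rw [hkin, hpot, ENNReal.toReal_ofReal', hc]
    have h1 := KK_le (D := D) hN hM hε hk0 hkG
    have h2 := PP_ge (D := D) hN hM hε
    have h3 : (0 : ℝ) ≤ Fintype.card D := Nat.cast_nonneg _
    have h4 : PE hf ε b ≤ -(N * w * Fintype.card D / 64) * Z := by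
      refine hb.trans ?_
      have e1 : -((N : ℝ) * (N - 1)) * ε ^ 2 * w * PP D ε (N - 2)
          = -((N - 1) / 8 * w) * PP D ε (N - 2) := by
        rw [hε]
        field_simp
      rw [e1]
      have e2 : (N : ℝ) / 16 * w ≤ (N - 1) / 8 * w :=
        mul_le_mul_of_nonneg_right (by linarith) hw0
      have e3 : (N : ℝ) / 16 * w * ((Fintype.card D / 4) * Z) ≤ (N - 1) / 8 * w * PP D ε (N - 2) := by
        apply mul_le_mul e2 h2
        · positivity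
        · have : (0 : ℝ) ≤ N - 1 := by linarith
          positivity
      linarith
    have h5 : 0 < Z⁻¹ := inv_pos.mpr hZ
    have hR : 0 ≤ (2 * N * k0 + kG * Fintype.card D / 8) := by positivity
    have h6 : Z⁻¹ * (N * KK D ε k0 kG (N - 1)) ≤ 2 * N * k0 + kG * Fintype.card D / 8 := by
      rw [inv_mul_le_iff₀ hZ]
      linarith
    have h7 : Z⁻¹ * PE hf ε b ≤ -(N * w * Fintype.card D / 64) := by
      rw [inv_mul_le_iff₀ hZ]
      linarith
    have h8 : max (Z⁻¹ * (N * KK D ε k0 kG (N - 1))) 0 ≤ 2 * N * k0 + kG * Fintype.card D / 8 :=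
      max_le h6 hR
    linarith

end Pool.Agent.T6.H42U
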