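import Pool.Agent.T6.H42U.ModesExist
import Pool.Agent.T6.H42U.NBodyMain

/-!
# The upper bound on the ground state energy
-/

set_option autoImplicit false
set_option linter.unusedSectionVars false

noncomputable section

namespace Pool.Agent.T6.H42U

open MeasureTheory Pool.Agent.T6.H42

/-- For large `N` the number of modes is at most the number of particles. -/
theorem large_N {α K : ℝ} (hα : 1 < α) (hK : 0 < K) : ∃ N0 : ℕ, ∀ N : ℕ, N0 ≤ N →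
    1 ≤ K * (N : ℝ) ^ (1 / (α + 3)) ∧ (K * (N : ℝ) ^ (1 / (α + 3))) ^ 3 ≤ N := by
  have h1 : Filter.Tendsto (fun N : ℕ => (N : ℝ) ^ (1 / (α + 3))) Filter.atTop Filter.atTop :=
    (tendsto_rpow_atTop (by positivity)).comp tendsto_natCast_atTop_atTop
  have h2 : Filter.Tendsto (fun N : ℕ => (N : ℝ) ^ (α / (α + 3))) Filter.atTop Filter.atTop :=
    (tendsto_rpow_atTop (by positivity)).comp tendsto_natCast_atTop_atTop
  have h3 := h1.eventually_ge_atTop (1 / K)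
  have h4 := h2.eventually_ge_atTop (K ^ 3)
  obtain ⟨N0, hN0⟩ := Filter.eventually_atTop.mp (h3.and (h4.and (Filter.eventually_ge_atTop 1)))
  refine ⟨N0, fun N hN => ?_⟩
  obtain ⟨e1, e2, e3⟩ := hN0 N hN
  have hNpos : (0 : ℝ) < N := by exact_mod_cast (by omega : 0 < N)
  constructor
  · rw [div_le_iff₀ hK] at e1
    linarith
  · have h5 : ((N : ℝ) ^ (1 / (α + 3))) ^ 3 = (N : ℝ) ^ (3 / (α + 3)) := by
      rw [← Real.rpow_natCast, ← Real.rpow_mul hNpos.le]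
      congr 1
      push_cast
      ring
    have h6 : (N : ℝ) ^ (α / (α + 3)) * (N : ℝ) ^ (3 / (α + 3)) = N := by
      rw [← Real.rpow_add hNpos, ← add_div, div_self (by positivity), Real.rpow_one]
    rw [mul_pow, h5]
    calc K ^ 3 * (N : ℝ) ^ (3 / (α + 3)) ≤ (N : ℝ) ^ (α / (α + 3)) * (N : ℝ) ^ (3 / (α + 3)) :=
          mul_le_mul_of_nonneg_right e2 (by positivity)
      _ = N := h6

/-- The choice of parameters. -/
theorem final_bound {α a c kΦ kΓ A μ y n N : ℝ} (ha : 0 < a) (hc : 0 < c) (hA : 0 < A) (hμ : 0 < μ) (hN : 0 < N) (hy : 0 < y)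
    (hA2 : kΦ * 4096 ≤ a ^ 2 * c * A ^ α)
    (hμ2 : 16 * kΓ * A ^ 3 ≤ a ^ 2 * c * μ ^ (α ^ 2 + 2 * α - 3))
    (hyN : N = (μ / y) ^ (α ^ 2 + 2 * α - 3))
    (hn1 : A * y ≤ 2 * (n * y ^ α)) (hn0 : 0 ≤ n) :
    2 * N * ((A * y) ^ (-α) * kΦ) + ((y ^ α) ^ (-α) * kΓ) * n ^ 3 / 8
      - N * (a ^ 2 * ((A * y) ^ 3)⁻¹ * (y ^ α) ^ 2 * c) * n ^ 3 / 64
      ≤ -(a ^ 2 * c / 2048) * (N * y ^ (-α)) := by
  have hAy : 0 < A * y := mul_pos hA hy
  have hya : 0 < y ^ α := Real.rpow_pos_of_pos hy α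
  have hAa : 0 < A ^ α := Real.rpow_pos_of_pos hA α
  have hω : 0 < a ^ 2 * c := by positivity
  -- first term
  have t1 : 2 * N * ((A * y) ^ (-α) * kΦ) ≤ (a ^ 2 * c / 2048) * (N * y ^ (-α)) := by
    have e1 : (A * y) ^ (-α) = (A ^ α)⁻¹ * y ^ (-α) := by
      rw [Real.mul_rpow hA.le hy.le, Real.rpow_neg hA.le]
    rw [e1]
    have e2 : (A ^ α)⁻¹ * kΦ ≤ a ^ 2 * c / 4096 := by
      rw [inv_mul_le_iff₀ hAa]
      linarith
    have e3 : 0 < N * y ^ (-α) := mul_pos hN (Real.rpow_pos_of_pos hy _)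
    calc 2 * N * ((A ^ α)⁻¹ * y ^ (-α) * kΦ) = 2 * ((A ^ α)⁻¹ * kΦ) * (N * y ^ (-α)) := by ring
      _ ≤ 2 * (a ^ 2 * c / 4096) * (N * y ^ (-α)) := by
          apply mul_le_mul_of_nonneg_right _ e3.le
          linarith
      _ = _ := by ring
  -- the weight of one mode
  have hW : 16 * ((y ^ α) ^ (-α) * kΓ) ≤ N * (a ^ 2 * ((A * y) ^ 3)⁻¹ * (y ^ α) ^ 2 * c) := by
    have e1 : (y ^ α) ^ (-α) = y ^ (-(α ^ 2)) := by
      rw [← Real.rpow_mul hy.le]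
      congr 1
      ring
    have e2 : N = μ ^ (α ^ 2 + 2 * α - 3) * y ^ (-(α ^ 2 + 2 * α - 3)) := by
      rw [hyN, Real.div_rpow hμ.le hy.le, Real.rpow_neg hy.le]
      rfl
    have e3 : y ^ (-(α ^ 2 + 2 * α - 3)) * ((y ^ 3)⁻¹ * (y ^ α) ^ 2) = y ^ (-(α ^ 2)) := by
      have f1 : (y ^ 3)⁻¹ = y ^ (-3 : ℝ) := by
        rw [Real.rpow_neg hy.le]
        congr 1
        norm_num
      have f2 : (y ^ α) ^ 2 = y ^ (2 * α) := by
        rw [← Real.rpow_natCast, ← Real.rpow_mul hy.le]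
        congr 1
        push_cast
        ring
      rw [f1, f2, ← Real.rpow_add hy, ← Real.rpow_add hy]
      congr 1
      ring
    rw [e1]
    have e4 : N * (a ^ 2 * ((A * y) ^ 3)⁻¹ * (y ^ α) ^ 2 * c)
        = (a ^ 2 * c * μ ^ (α ^ 2 + 2 * α - 3)) * (A ^ 3)⁻¹ * y ^ (-(α ^ 2)) := by
      rw [← e3]
      nth_rewrite 1 [e2]
      rw [mul_pow, mul_inv]
      ring
    rw [e4]
    have e5 : 16 * kΓ ≤ (a ^ 2 * c * μ ^ (α ^ 2 + 2 * α - 3)) * (A ^ 3)⁻¹ := by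
      rw [← div_eq_mul_inv, le_div_iff₀ (by positivity)]
      exact hμ2
    have e6 : 0 < y ^ (-(α ^ 2)) := Real.rpow_pos_of_pos hy _
    nlinarith
  -- the third term
  have hn3 : 0 ≤ n ^ 3 := by positivity
  have t2 : ((y ^ α) ^ (-α) * kΓ) * n ^ 3 / 8
      ≤ N * (a ^ 2 * ((A * y) ^ 3)⁻¹ * (y ^ α) ^ 2 * c) * n ^ 3 / 128 := by
    have := mul_le_mul_of_nonneg_right hW hn3
    linarith
  have t3 : (a ^ 2 * c / 1024) * (N * y ^ (-α))
      ≤ N * (a ^ 2 * ((A * y) ^ 3)⁻¹ * (y ^ α) ^ 2 * c) * n ^ 3 / 128 := by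
    have e1 : (A * y) ^ 3 ≤ 8 * (n ^ 3 * (y ^ α) ^ 3) := by
      have := pow_le_pow_left₀ hAy.le hn1 3
      calc (A * y) ^ 3 ≤ (2 * (n * y ^ α)) ^ 3 := this
        _ = _ := by ring
    have e2 : y ^ (-α) = (y ^ α)⁻¹ := Real.rpow_neg hy.le α
    rw [e2]
    have e3 : (y ^ α)⁻¹ ≤ 8 * (((A * y) ^ 3)⁻¹ * (y ^ α) ^ 2 * n ^ 3) := by
      rw [inv_le_iff_one_le_mul₀ hya]
      have e4 : 8 * (((A * y) ^ 3)⁻¹ * (y ^ α) ^ 2 * n ^ 3) * y ^ α
          = ((A * y) ^ 3)⁻¹ * (8 * (n ^ 3 * (y ^ α) ^ 3)) := by ring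
      rw [e4, ← div_eq_inv_mul, le_div_iff₀ (by positivity)]
      linarith
    have e5 : 0 < a ^ 2 * c / 1024 * N := by positivity
    calc (a ^ 2 * c / 1024) * (N * (y ^ α)⁻¹) = (a ^ 2 * c / 1024 * N) * (y ^ α)⁻¹ := by ring
      _ ≤ (a ^ 2 * c / 1024 * N) * (8 * (((A * y) ^ 3)⁻¹ * (y ^ α) ^ 2 * n ^ 3)) :=
          mul_le_mul_of_nonneg_left e3 e5.le
      _ = _ := by ring
  linarith

/-- **Upper bound.** For every `α > 1` there are charges and a normalised wave function with energy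
at most `-c N ^ gam α`. -/
theorem upper (α : ℝ) (hα : 1 < α) : ∃ c > 0, ∃ N0 : ℕ, ∀ N ≥ N0, ∃ e : Fin N → ℝ, IsCharge e ∧
    ∃ ψ : Wave N, ‖ψ‖ = 1 ∧ kin α ψ ≠ ⊤ ∧ Integrable (fun x => coul e x * ‖ψ x‖ ^ 2) ∧
    (kin α ψ).toReal + pot e ψ ≤ -c * (N : ℝ) ^ gam α := by
  obtain ⟨a, c, kΦ, kΓ, ha, hc, hkΦ, hkΓ, hmodes⟩ := modes_exist α
  have hα0 : 0 < α := by linarith
  have hω : 0 < a ^ 2 * c := by positivity
  have hδ : 0 < α ^ 2 + 2 * α - 3 := by nlinarith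
  -- choice of `A`
  obtain ⟨A, hA, hA2⟩ : ∃ A : ℝ, 0 < A ∧ kΦ * 4096 ≤ a ^ 2 * c * A ^ α := by
    refine ⟨(kΦ * 4096 / (a ^ 2 * c) + 1) ^ (1 / α), by positivity, ?_⟩
    rw [← Real.rpow_mul (by positivity), one_div, inv_mul_cancel₀ hα0.ne', Real.rpow_one, mul_add,
      mul_div_cancel₀ _ hω.ne']
    linarith
  -- choice of `μ`
  obtain ⟨μ, hμ, hμ2⟩ : ∃ μ : ℝ, 0 < μ ∧
      16 * kΓ * A ^ 3 ≤ a ^ 2 * c * μ ^ (α ^ 2 + 2 * α - 3) := by
    refine ⟨(16 * kΓ * A ^ 3 / (a ^ 2 * c) + 1) ^ (1 / (α ^ 2 + 2 * α - 3)), by positivity, ?_⟩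
    rw [← Real.rpow_mul (by positivity), one_div, inv_mul_cancel₀ hδ.ne', Real.rpow_one, mul_add,
      mul_div_cancel₀ _ hω.ne']
    linarith
  obtain ⟨N0, hN0⟩ := large_N (K := A * μ ^ (1 - α)) hα (by positivity)
  refine ⟨a ^ 2 * c / 2048 * μ ^ (-α), by positivity, max N0 2, ?_⟩
  intro N hN
  have hN2 : 2 ≤ N := le_trans (le_max_right _ _) hN
  have hNpos : (0 : ℝ) < N := by exact_mod_cast (by omega : 0 < N)
  obtain ⟨h1, h2⟩ := hN0 N (le_trans (le_max_left _ _) hN)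
  -- the scale
  obtain ⟨y, hydef⟩ : ∃ y : ℝ, y = μ * (N : ℝ) ^ (-(1 / (α ^ 2 + 2 * α - 3))) := ⟨_, rfl⟩
  have hy : 0 < y := by rw [hydef]; positivity
  have hyN : (N : ℝ) = (μ / y) ^ (α ^ 2 + 2 * α - 3) := by
    have : μ / y = (N : ℝ) ^ (1 / (α ^ 2 + 2 * α - 3)) := by
      rw [hydef, Real.rpow_neg hNpos.le]
      field_simp
    rw [this, ← Real.rpow_mul hNpos.le, one_div, inv_mul_cancel₀ hδ.ne', Real.rpow_one]
  have hya : 0 < y ^ α := Real.rpow_pos_of_pos hy α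
  -- the ratio
  have hratio : A * y / y ^ α = A * μ ^ (1 - α) * (N : ℝ) ^ (1 / (α + 3)) := by
    have e1 : y / y ^ α = y ^ (1 - α) := by
      rw [Real.rpow_sub hy, Real.rpow_one]
    rw [mul_div_assoc, e1, hydef, Real.mul_rpow hμ.le (by positivity), ← Real.rpow_mul hNpos.le,
      ← mul_assoc]
    congr 2
    have e2 : α ^ 2 + 2 * α - 3 = (α - 1) * (α + 3) := by ring
    have e3 : α - 1 ≠ 0 := by
      intro h
      linarith
    have e4 : α + 3 ≠ 0 := by positivity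
    rw [e2]
    field_simp
    ring
  obtain ⟨n, hndef⟩ : ∃ n : ℕ, n = ⌊A * y / y ^ α⌋₊ := ⟨_, rfl⟩
  have hpos : 0 ≤ A * y / y ^ α := by positivity
  have hn_le : (n : ℝ) ≤ A * y / y ^ α := by rw [hndef]; exact Nat.floor_le hpos
  have hn_gt : A * y / y ^ α < n + 1 := by rw [hndef]; exact Nat.lt_floor_add_one _
  have hn1 : (1 : ℝ) ≤ n := by
    have : 1 ≤ n := by
      rw [hndef, Nat.one_le_floor_iff, hratio]
      exact h1
    exact_mod_cast this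
  have hcard : Fintype.card (Fin 3 → Fin n) ≤ N := by
    rw [Fintype.card_fun, Fintype.card_fin, Fintype.card_fin]
    have e1 : ((n ^ 3 : ℕ) : ℝ) ≤ N := by
      push_cast
      calc (n : ℝ) ^ 3 ≤ (A * y / y ^ α) ^ 3 := pow_le_pow_left₀ (by positivity) hn_le 3
        _ = (A * μ ^ (1 - α) * (N : ℝ) ^ (1 / (α + 3))) ^ 3 := by rw [hratio]
        _ ≤ N := h2
    exact_mod_cast e1
  have hnl : (n : ℝ) * y ^ α ≤ A * y := by
    rwa [le_div_iff₀ hya] at hn_le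
  have hng : A * y ≤ 2 * (n * y ^ α) := by
    rw [div_lt_iff₀ hya] at hn_gt
    nlinarith
  obtain ⟨f, hf, hf0, hfG, hfw⟩ := hmodes n (y ^ α) (A * y) hya (by positivity) hnl
  have hAy3 : 0 < (A * y) ^ 3 := by positivity
  obtain ⟨e, he, ψ, hψ1, hψ2, hψ3, hψ4⟩ := nbody (D := Fin 3 → Fin n) hN2 hcard hf hα0.le
    (k0 := (A * y) ^ (-α) * kΦ) (kG := (y ^ α) ^ (-α) * kΓ)
    (w := a ^ 2 * ((A * y) ^ 3)⁻¹ * (y ^ α) ^ 2 * c) (by positivity) (by positivity)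
    (by positivity) hf0 hfG hfw
  refine ⟨e, he, ψ, hψ1, hψ2, hψ3, hψ4.trans ?_⟩
  have hfin := final_bound (n := (n : ℝ)) ha hc hA hμ hNpos hy hA2 hμ2 hyN hng
    (by positivity)
  have hcard' : ((Fintype.card (Fin 3 → Fin n) : ℕ) : ℝ) = (n : ℝ) ^ 3 := by
    rw [Fintype.card_fun, Fintype.card_fin, Fintype.card_fin]
    push_cast
    rfl
  rw [hcard']
  refine hfin.trans (le_of_eq ?_)
  have e1 : (N : ℝ) * y ^ (-α) = μ ^ (-α) * (N : ℝ) ^ gam α := by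
    rw [hydef, Real.mul_rpow hμ.le (by positivity), ← Real.rpow_mul hNpos.le]
    have e2 : (N : ℝ) * (μ ^ (-α) * (N : ℝ) ^ (-(1 / (α ^ 2 + 2 * α - 3)) * -α))
        = μ ^ (-α) * ((N : ℝ) ^ (1 : ℝ) * (N : ℝ) ^ (-(1 / (α ^ 2 + 2 * α - 3)) * -α)) := by
      rw [Real.rpow_one]
      ring
    rw [e2, ← Real.rpow_add hNpos]
    congr 2
    unfold gam
    have e3 : (α - 1) * (α + 3) = α ^ 2 + 2 * α - 3 := by ring
    have e4 : (1 : ℝ) + -(1 / (α ^ 2 + 2 * α - 3)) * -α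
        = (α ^ 2 + 2 * α - 3 + α) / (α ^ 2 + 2 * α - 3) := by
      rw [add_div, div_self hδ.ne']
      ring
    rw [e3, e4]
    congr 1
    ring
  rw [e1]
  ring

end Pool.Agent.T6.H42U
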