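import Pool.Agent.T6.H42U.Geom

/-!
# Base functions
-/

set_option autoImplicit false
set_option linter.unusedSectionVars false

noncomputable section

namespace Pool.Agent.T6.H42U

open MeasureTheory Pool.Agent.T6.H42
open scoped ContDiff FourierTransform SchwartzMap ComplexConjugate ENNReal

theorem nice_ofReal {g : E3 → ℝ} (hs : ContDiff ℝ ∞ g) (hc : HasCompactSupport g) :
    Nice (fun x => (g x : ℂ)) := by
  refine ⟨Complex.ofRealCLM.contDiff.comp hs, ?_⟩
  exact hc.comp_left (g := fun r : ℝ => (r : ℂ)) Complex.ofReal_zero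

theorem ov_ofReal (g : E3 → ℝ) (a : ℝ) :
    ov (fun x => ((a * g x : ℝ) : ℂ)) (fun x => ((a * g x : ℝ) : ℂ))
      = ((a ^ 2 * ∫ x, g x ^ 2 : ℝ) : ℂ) := by
  unfold ov
  rw [← integral_const_mul, ← integral_complex_ofReal]
  congr 1
  funext x
  rw [Complex.conj_ofReal]
  push_cast
  ring

theorem sq_cpt {g : E3 → ℝ} (hg : HasCompactSupport g) : HasCompactSupport (fun x => g x ^ 2) := by
  have h : (fun x => g x ^ 2) = fun x => g x * g x := by
    funext x
    ring
  rw [h]
  exact hg.mul_left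

theorem base_phi : ∃ (Φ : E3 → ℂ) (a : ℝ), 0 < a ∧ Nice Φ ∧ (∀ x, conj (Φ x) = Φ x) ∧
    ov Φ Φ = 1 ∧ ∀ x, ‖x‖ ≤ 3 → Φ x = a := by
  let b : ContDiffBump (0 : E3) := ⟨3, 4, by norm_num, by norm_num⟩
  have hpos : 0 < ∫ x, b x ^ 2 := by
    apply Continuous.integral_pos_of_hasCompactSupport_nonneg_nonzero (x := 0)
    · exact b.continuous.pow 2
    · exact sq_cpt b.hasCompactSupport
    · intro x
      positivity
    · have : b (0 : E3) = 1 := b.one_of_mem_closedBall (by simp [b])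
      rw [this]
      norm_num
  set a : ℝ := (Real.sqrt (∫ x, b x ^ 2))⁻¹ with ha
  have ha0 : 0 < a := inv_pos.mpr (Real.sqrt_pos.mpr hpos)
  refine ⟨fun x => ((a * b x : ℝ) : ℂ), a, ha0, ?_, ?_, ?_, ?_⟩
  · apply nice_ofReal
    · exact contDiff_const.mul b.contDiff
    · exact b.hasCompactSupport.mul_left
  · intro x
    exact Complex.conj_ofReal _
  · rw [ov_ofReal, ha, inv_pow, Real.sq_sqrt hpos.le, inv_mul_cancel₀ hpos.ne']
    norm_num
  · intro x hx
    have : b x = 1 := b.one_of_mem_closedBall (by simpa [b] using hx)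
    change ((a * b x : ℝ) : ℂ) = a
    rw [this, mul_one]

theorem ae_ne : ∀ᵐ p : E3 × E3, p.1 ≠ p.2 := by
  rw [ae_iff]
  have hm : MeasurableSet {p : E3 × E3 | ¬p.1 ≠ p.2} := by
    have : {p : E3 × E3 | ¬p.1 ≠ p.2} = {p : E3 × E3 | p.1 = p.2} := by
      ext p
      simp
    rw [this]
    exact measurableSet_eq_fun measurable_fst measurable_snd
  rw [Measure.volume_eq_prod, Measure.measure_prod_null hm]
  refine Filter.Eventually.of_forall fun x => ?_
  have : Prod.mk x ⁻¹' {p : E3 × E3 | ¬p.1 ≠ p.2} = {x} := by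
    ext y
    simp [eq_comm]
  change volume (Prod.mk x ⁻¹' {p : E3 × E3 | ¬p.1 ≠ p.2}) = 0
  rw [this]
  simp

/-- Real Coulomb form. -/
def cr (F G : E3 → ℝ) : ℝ := ∫ p : E3 × E3, ‖p.1 - p.2‖⁻¹ * (F p.1 * G p.2)

theorem cf_ofReal (F G : E3 → ℝ) : cf (fun x => (F x : ℂ)) (fun x => (G x : ℂ)) = (cr F G : ℂ) := by
  unfold cf cr
  rw [← integral_complex_ofReal]
  congr 1
  funext p
  push_cast
  ring

/-- Positivity of the Coulomb energy of a dipole. -/
theorem dipole (b : E3 → ℝ) (hb0 : ∀ x, 0 ≤ b x) (hs : ContDiff ℝ ∞ b) (hc : HasCompactSupport b)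
    (hsupp : ∀ x, 1 / 16 ≤ ‖x‖ → b x = 0) (hI : 0 < ∫ x, b x) (p : E3) (hp : ‖p‖ = 1 / 4) :
    0 < cr (fun x => b (x - p) - b (x + p)) (fun x => b (x - p) - b (x + p)) := by
  have hs1 : ContDiff ℝ ∞ (fun x => b (x - p)) := hs.comp (contDiff_id.sub contDiff_const)
  have hs2 : ContDiff ℝ ∞ (fun x => b (x + p)) := hs.comp (contDiff_id.add contDiff_const)
  have hc1 : HasCompactSupport (fun x => b (x - p)) :=
    hc.comp_homeomorph (Homeomorph.subRight p)
  have hc2 : HasCompactSupport (fun x => b (x + p)) :=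
    hc.comp_homeomorph (Homeomorph.addRight p)
  have i1 : Integrable (fun x => b (x - p)) := hs1.continuous.integrable_of_hasCompactSupport hc1
  have i2 : Integrable (fun x => b (x + p)) := hs2.continuous.integrable_of_hasCompactSupport hc2
  have I1 : ∫ x, b (x - p) = ∫ x, b x := integral_sub_right_eq_self b p
  have I2 : ∫ x, b (x + p) = ∫ x, b x := integral_add_right_eq_self b p
  set L : E3 × E3 → ℝ := fun q => 8 * (b (q.1 - p) * b (q.2 - p)) + 8 * (b (q.1 + p) * b (q.2 + p))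
    - (8 / 3) * (b (q.1 - p) * b (q.2 + p)) - (8 / 3) * (b (q.1 + p) * b (q.2 - p)) with hL
  have j1 : Integrable (fun q : E3 × E3 => 8 * (b (q.1 - p) * b (q.2 - p)))
      ((volume : Measure E3).prod (volume : Measure E3)) := (i1.mul_prod i1).const_mul 8
  have j2 : Integrable (fun q : E3 × E3 => 8 * (b (q.1 + p) * b (q.2 + p)))
      ((volume : Measure E3).prod (volume : Measure E3)) := (i2.mul_prod i2).const_mul 8
  have j3 : Integrable (fun q : E3 × E3 => (8 / 3) * (b (q.1 - p) * b (q.2 + p)))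
      ((volume : Measure E3).prod (volume : Measure E3)) := (i1.mul_prod i2).const_mul (8 / 3)
  have j4 : Integrable (fun q : E3 × E3 => (8 / 3) * (b (q.1 + p) * b (q.2 - p)))
      ((volume : Measure E3).prod (volume : Measure E3)) := (i2.mul_prod i1).const_mul (8 / 3)
  have j12 : Integrable (fun q : E3 × E3 => 8 * (b (q.1 - p) * b (q.2 - p))
      + 8 * (b (q.1 + p) * b (q.2 + p)))
      ((volume : Measure E3).prod (volume : Measure E3)) := j1.add j2
  have j123 : Integrable (fun q : E3 × E3 => 8 * (b (q.1 - p) * b (q.2 - p))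
      + 8 * (b (q.1 + p) * b (q.2 + p)) - (8 / 3) * (b (q.1 - p) * b (q.2 + p)))
      ((volume : Measure E3).prod (volume : Measure E3)) := j12.sub j3
  have hLi : Integrable L ((volume : Measure E3).prod (volume : Measure E3)) := j123.sub j4
  have hLint : ∫ q, L q = (32 / 3) * (∫ x, b x) ^ 2 := by
    have e0 : ∫ q, L q = ∫ q : E3 × E3, (8 * (b (q.1 - p) * b (q.2 - p))
      + 8 * (b (q.1 + p) * b (q.2 + p)) - (8 / 3) * (b (q.1 - p) * b (q.2 + p)))
      - (8 / 3) * (b (q.1 + p) * b (q.2 - p)) := rfl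
    rw [e0, Measure.volume_eq_prod, integral_sub j123 j4, integral_sub j12 j3, integral_add j1 j2,
      integral_const_mul, integral_const_mul, integral_const_mul, integral_const_mul,
      integral_prod_mul (fun x => b (x - p)) (fun x => b (x - p)),
      integral_prod_mul (fun x => b (x + p)) (fun x => b (x + p)),
      integral_prod_mul (fun x => b (x - p)) (fun x => b (x + p)),
      integral_prod_mul (fun x => b (x + p)) (fun x => b (x - p)), I1, I2]
    ring
  have hN : Nice (fun x => ((b (x - p) - b (x + p) : ℝ) : ℂ)) :=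
    nice_ofReal (hs1.sub hs2) (hc1.sub hc2)
  have hint : Integrable (fun q : E3 × E3 => ‖q.1 - q.2‖⁻¹ *
      ((b (q.1 - p) - b (q.1 + p)) * (b (q.2 - p) - b (q.2 + p)))) := by
    have h1 := (cf_integrable hN hN).re
    refine h1.congr (Filter.Eventually.of_forall fun q => ?_)
    simp only [← Complex.ofReal_mul, RCLike.re_to_complex, Complex.ofReal_re]
  have hle : ∀ᵐ q : E3 × E3, L q ≤ ‖q.1 - q.2‖⁻¹ *
      ((b (q.1 - p) - b (q.1 + p)) * (b (q.2 - p) - b (q.2 + p))) := by
    filter_upwards [ae_ne] with q hq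
    have hd : 0 < ‖q.1 - q.2‖ := norm_pos_iff.mpr (sub_ne_zero.mpr hq)
    have hlt : ∀ x, b x ≠ 0 → ‖x‖ < 1 / 16 := by
      intro x hx
      by_contra h
      exact hx (hsupp x (not_lt.mp h))
    -- near pairs
    have near : ∀ u v : E3, u - v = q.1 - q.2 → 8 * (b u * b v) ≤ ‖q.1 - q.2‖⁻¹ * (b u * b v) := by
      intro u v huv
      by_cases hu : b u = 0
      · simp [hu]
      by_cases hv : b v = 0
      · simp [hv]
      apply mul_le_mul_of_nonneg_right _ (mul_nonneg (hb0 u) (hb0 v))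
      rw [le_inv_comm₀ (by norm_num) hd, ← huv]
      calc ‖u - v‖ ≤ ‖u‖ + ‖v‖ := norm_sub_le _ _
        _ ≤ 8⁻¹ := by
          have := hlt u hu
          have := hlt v hv
          linarith
    -- far pairs
    have far : ∀ (u v : E3), (q.1 - q.2 = u - v + (2 : ℝ) • p ∨ q.1 - q.2 = u - v - (2 : ℝ) • p) →
        ‖q.1 - q.2‖⁻¹ * (b u * b v) ≤ (8 / 3) * (b u * b v) := by
      intro u v huv
      by_cases hu : b u = 0
      · simp [hu]
      by_cases hv : b v = 0
      · simp [hv]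
      apply mul_le_mul_of_nonneg_right _ (mul_nonneg (hb0 u) (hb0 v))
      rw [inv_le_comm₀ hd (by norm_num)]
      have h2p : ‖(2 : ℝ) • p‖ = 1 / 2 := by
        rw [norm_smul, hp]
        norm_num
      have huv' : ‖u - v‖ ≤ 1 / 8 := by
        calc ‖u - v‖ ≤ ‖u‖ + ‖v‖ := norm_sub_le _ _
          _ ≤ 1 / 8 := by
            have := hlt u hu
            have := hlt v hv
            linarith
      rcases huv with h | h
      · have e : (2 : ℝ) • p = (q.1 - q.2) - (u - v) := by rw [h]; abel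
        have := norm_sub_le (q.1 - q.2) (u - v)
        rw [← e, h2p] at this
        have h3 : ((8 : ℝ) / 3)⁻¹ = 3 / 8 := by norm_num
        rw [h3]
        linarith
      · have e : (2 : ℝ) • p = (u - v) - (q.1 - q.2) := by rw [h]; abel
        have := norm_sub_le (u - v) (q.1 - q.2)
        rw [← e, h2p] at this
        have h3 : ((8 : ℝ) / 3)⁻¹ = 3 / 8 := by norm_num
        rw [h3]
        linarith
    have n1 := near (q.1 - p) (q.2 - p) (by abel)
    have n2 := near (q.1 + p) (q.2 + p) (by abel)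
    have f1 := far (q.1 - p) (q.2 + p) (Or.inl (by rw [two_smul]; abel))
    have f2 := far (q.1 + p) (q.2 - p) (Or.inr (by rw [two_smul]; abel))
    rw [hL]
    simp only []
    have e : ‖q.1 - q.2‖⁻¹ * ((b (q.1 - p) - b (q.1 + p)) * (b (q.2 - p) - b (q.2 + p)))
        = ‖q.1 - q.2‖⁻¹ * (b (q.1 - p) * b (q.2 - p)) + ‖q.1 - q.2‖⁻¹ * (b (q.1 + p) * b (q.2 + p))
          - ‖q.1 - q.2‖⁻¹ * (b (q.1 - p) * b (q.2 + p))
          - ‖q.1 - q.2‖⁻¹ * (b (q.1 + p) * b (q.2 - p)) := by ring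
    rw [e]
    linarith
  have hfin : ∫ q, L q ≤ cr (fun x => b (x - p) - b (x + p)) (fun x => b (x - p) - b (x + p)) := by
    unfold cr
    exact integral_mono_ae hLi hint hle
  rw [hLint] at hfin
  have : 0 < (32 / 3) * (∫ x, b x) ^ 2 := by positivity
  linarith

theorem gamma_of_bump (b : E3 → ℝ) (hb0 : ∀ x, 0 ≤ b x) (hs : ContDiff ℝ ∞ b)
    (hc : HasCompactSupport b) (hsupp : ∀ x, 1 / 16 ≤ ‖x‖ → b x = 0) (hb1 : b 0 = 1)
    (p : E3) (hp : ‖p‖ = 1 / 4) :
    ∃ (Γ : E3 → ℂ) (c : ℝ), 0 < c ∧ Nice Γ ∧ (∀ x, conj (Γ x) = Γ x) ∧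
    ov Γ Γ = 1 ∧ ∫ x, Γ x = 0 ∧ (∀ x, 1 / 2 ≤ ‖x‖ → Γ x = 0) ∧ cf Γ Γ = c := by
  have hI : 0 < ∫ x, b x := by
    apply Continuous.integral_pos_of_hasCompactSupport_nonneg_nonzero (x := 0)
    · exact hs.continuous
    · exact hc
    · exact hb0
    · rw [hb1]
      norm_num
  have hD := dipole b hb0 hs hc hsupp hI p hp
  have hs1 : ContDiff ℝ ∞ (fun x => b (x - p)) := hs.comp (contDiff_id.sub contDiff_const)
  have hs2 : ContDiff ℝ ∞ (fun x => b (x + p)) := hs.comp (contDiff_id.add contDiff_const)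
  have hc1 : HasCompactSupport (fun x => b (x - p)) :=
    hc.comp_homeomorph (Homeomorph.subRight p)
  have hc2 : HasCompactSupport (fun x => b (x + p)) :=
    hc.comp_homeomorph (Homeomorph.addRight p)
  obtain ⟨g, hg⟩ : ∃ g : E3 → ℝ, g = fun x => b (x - p) - b (x + p) := ⟨_, rfl⟩
  rw [← hg] at hD
  have hgs : ContDiff ℝ ∞ g := by
    rw [hg]
    exact hs1.sub hs2
  have hgc : HasCompactSupport g := by
    rw [hg]
    exact hc1.sub hc2
  have hgp : g p ≠ 0 := by
    have h1 : b (p - p) = 1 := by rw [sub_self, hb1]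
    have h2 : b (p + p) = 0 := by
      apply hsupp
      rw [← two_smul ℝ p, norm_smul, hp]
      norm_num
    rw [hg]
    simp only []
    rw [h1, h2]
    norm_num
  have hpos : 0 < ∫ x, g x ^ 2 := by
    apply Continuous.integral_pos_of_hasCompactSupport_nonneg_nonzero (x := p)
    · exact hgs.continuous.pow 2
    · exact sq_cpt hgc
    · intro x
      positivity
    · exact pow_ne_zero 2 hgp
  obtain ⟨a, ha⟩ : ∃ a : ℝ, a = (Real.sqrt (∫ x, g x ^ 2))⁻¹ := ⟨_, rfl⟩
  have ha0 : 0 < a := by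
    rw [ha]
    exact inv_pos.mpr (Real.sqrt_pos.mpr hpos)
  refine ⟨fun x => ((a * g x : ℝ) : ℂ), a ^ 2 * cr g g, by positivity, ?_, ?_, ?_, ?_, ?_, ?_⟩
  · apply nice_ofReal
    · exact contDiff_const.mul hgs
    · exact hgc.mul_left
  · intro x
    exact Complex.conj_ofReal _
  · rw [ov_ofReal, ha, inv_pow, Real.sq_sqrt hpos.le, inv_mul_cancel₀ hpos.ne']
    norm_num
  · rw [integral_complex_ofReal, integral_const_mul]
    have i1 : Integrable (fun x => b (x - p)) := hs1.continuous.integrable_of_hasCompactSupport hc1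
    have i2 : Integrable (fun x => b (x + p)) := hs2.continuous.integrable_of_hasCompactSupport hc2
    have : ∫ x, g x = 0 := by
      rw [hg, integral_sub i1 i2, integral_sub_right_eq_self b p, integral_add_right_eq_self b p,
        sub_self]
    rw [this]
    simp
  · intro x hx
    have h1 : b (x - p) = 0 := by
      apply hsupp
      have := norm_sub_norm_le x p
      rw [hp] at this
      linarith
    have h2 : b (x + p) = 0 := by
      apply hsupp
      have := norm_sub_norm_le x (-p)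
      rw [norm_neg, hp, sub_neg_eq_add] at this
      linarith
    have h3 : g x = 0 := by
      rw [hg]
      simp only []
      rw [h1, h2, sub_self]
    change ((a * g x : ℝ) : ℂ) = 0
    rw [h3]
    simp
  · have h1 := cf_smul (a : ℂ) (fun x => (g x : ℂ))
    have h2 := cf_ofReal g g
    rw [h2] at h1
    push_cast
    exact h1

theorem base_gamma : ∃ (Γ : E3 → ℂ) (c : ℝ), 0 < c ∧ Nice Γ ∧ (∀ x, conj (Γ x) = Γ x) ∧
    ov Γ Γ = 1 ∧ ∫ x, Γ x = 0 ∧ (∀ x, 1 / 2 ≤ ‖x‖ → Γ x = 0) ∧ cf Γ Γ = c := by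
  let b : ContDiffBump (0 : E3) := ⟨1 / 32, 1 / 16, by norm_num, by norm_num⟩
  refine gamma_of_bump b (fun x => b.nonneg) b.contDiff b.hasCompactSupport ?_ ?_
    (EuclideanSpace.single 0 (1 / 4)) ?_
  · intro x hx
    apply b.zero_of_le_dist
    rw [dist_zero_right]
    exact hx
  · exact b.one_of_mem_closedBall (by simp [b])
  · simp

end Pool.Agent.T6.H42U
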