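import Mathlib

/-!
# Sums over sign vectors
-/

set_option autoImplicit false

noncomputable section

namespace Pool.Agent.T6.H42U

/-- The sign of a Boolean. -/
def sg (b : Bool) : ℝ := if b then 1 else -1

theorem sg_not (b : Bool) : sg (!b) = -sg b := by
  cases b <;> simp [sg]

theorem sg_mul_self (b : Bool) : sg b * sg b = 1 := by
  cases b <;> simp [sg]

theorem sg_abs (b : Bool) : |sg b| = 1 := by
  cases b <;> simp [sg]

variable {D : Type*} [DecidableEq D]

/-- Flip one coordinate. -/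
def flip (B : D) (θ : D → Bool) : D → Bool := Function.update θ B (!θ B)

theorem flip_self (B : D) (θ : D → Bool) : flip B θ B = !θ B := by
  simp [flip]

theorem flip_ne {B B' : D} (h : B' ≠ B) (θ : D → Bool) : flip B θ B' = θ B' := by
  simp [flip, h]

theorem flip_flip (B : D) : Function.Involutive (flip B) := by
  intro θ
  funext B'
  by_cases h : B' = B
  · subst h
    rw [flip_self, flip_self, Bool.not_not]
  · rw [flip_ne h, flip_ne h]

variable [Fintype D]

theorem sum_flip {A : Type*} [AddCommMonoid A] (B : D) (F : (D → Bool) → A) :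
    ∑ θ, F (flip B θ) = ∑ θ, F θ :=
  Equiv.sum_comp (flip_flip B).toPerm F

theorem sum_flip2 {A : Type*} [AddCommMonoid A] (B : D) (F : (D → Bool) → (D → Bool) → A) :
    ∑ θ', ∑ θ, F (flip B θ') (flip B θ) = ∑ θ', ∑ θ, F θ' θ := by
  rw [sum_flip B (fun θ' => ∑ θ, F θ' (flip B θ))]
  apply Finset.sum_congr rfl
  intro θ' _
  exact sum_flip B (fun θ => F θ' θ)

theorem sum_eq_zero_of_flip (B : D) (F : (D → Bool) → (D → Bool) → ℂ)
    (h : ∀ θ' θ, F (flip B θ') (flip B θ) = -F θ' θ) : ∑ θ', ∑ θ, F θ' θ = 0 := by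
  have h1 := sum_flip2 B F
  simp_rw [h, Finset.sum_neg_distrib] at h1
  have h2 : (2 : ℂ) * ∑ θ', ∑ θ, F θ' θ = 0 := by
    have : ∑ θ', ∑ θ, F θ' θ + ∑ θ', ∑ θ, F θ' θ = 0 := by
      nth_rewrite 1 [← h1]
      ring
    rw [two_mul]
    exact this
  simpa using h2

theorem sum_eq_zero_of_flipR (B : D) (F : (D → Bool) → (D → Bool) → ℝ)
    (h : ∀ θ' θ, F (flip B θ') (flip B θ) = -F θ' θ) : ∑ θ', ∑ θ, F θ' θ = 0 := by
  have h1 := sum_flip2 B F
  simp_rw [h, Finset.sum_neg_distrib] at h1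
  linarith

/-- The overlap of two sign vectors. -/
def XX (θ' θ : D → Bool) : ℝ := ∑ B, sg (θ' B) * sg (θ B)

theorem XX_flip2 (B : D) (θ' θ : D → Bool) : XX (flip B θ') (flip B θ) = XX θ' θ := by
  unfold XX
  apply Finset.sum_congr rfl
  intro B' _
  by_cases h : B' = B
  · subst h
    rw [flip_self, flip_self, sg_not, sg_not]
    ring
  · rw [flip_ne h, flip_ne h]

theorem XX_flip1 (B : D) (θ' θ : D → Bool) :
    XX θ' (flip B θ) = XX θ' θ - 2 * (sg (θ' B) * sg (θ B)) := by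
  unfold XX
  rw [← Finset.add_sum_erase Finset.univ _ (Finset.mem_univ B),
    ← Finset.add_sum_erase Finset.univ (fun B' => sg (θ' B') * sg (θ B')) (Finset.mem_univ B)]
  rw [flip_self, sg_not]
  have : ∑ x ∈ Finset.univ.erase B, sg (θ' x) * sg (flip B θ x)
      = ∑ x ∈ Finset.univ.erase B, sg (θ' x) * sg (θ x) := by
    apply Finset.sum_congr rfl
    intro x hx
    rw [flip_ne (Finset.ne_of_mem_erase hx)]
  rw [this]
  ring

omit [DecidableEq D] in
theorem XX_abs (θ' θ : D → Bool) : |XX θ' θ| ≤ Fintype.card D := by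
  unfold XX
  calc |∑ B, sg (θ' B) * sg (θ B)| ≤ ∑ B, |sg (θ' B) * sg (θ B)| := Finset.abs_sum_le_sum_abs _ _
    _ = ∑ B : D, (1 : ℝ) := by
        apply Finset.sum_congr rfl
        intro B _
        rw [abs_mul, sg_abs, sg_abs, one_mul]
    _ = Fintype.card D := by simp

theorem bern {a t : ℝ} (ht : 0 ≤ t) (ha : 1 / 2 ≤ a) (hb : 0 ≤ a - 2 * t) (m : ℕ) :
    a ^ m - (a - 2 * t) ^ m ≤ 4 * t * m * a ^ m := by
  have ha0 : 0 < a := by linarith
  have h1 : a - 2 * t = a * (1 + (-2 * t / a)) := by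
    field_simp
    ring
  have h2 : -2 ≤ -2 * t / a := by
    rw [le_div_iff₀ ha0]
    nlinarith
  have h3 := one_add_mul_le_pow h2 m
  have h4 : (a - 2 * t) ^ m = a ^ m * (1 + (-2 * t / a)) ^ m := by
    rw [← mul_pow, ← h1]
  have h5 : 0 ≤ a ^ m := by positivity
  have h6 : (m : ℝ) * (2 * t / a) ≤ 4 * t * m := by
    have : 2 * t / a ≤ 4 * t := by
      rw [div_le_iff₀ ha0]
      nlinarith
    have hm : (0 : ℝ) ≤ m := Nat.cast_nonneg m
    nlinarith
  rw [h4]
  have h7 : (m : ℝ) * (-2 * t / a) = -((m : ℝ) * (2 * t / a)) := by ring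
  nlinarith

theorem xi_bound {t : ℝ} (ht : 0 ≤ t) (htM : t * Fintype.card D ≤ 1 / 2) (B : D)
    (m : ℕ) (θ' : D → Bool) :
    ∑ θ, sg (θ' B) * sg (θ B) * (1 + t * XX θ' θ) ^ m
      ≤ 4 * t * m * ∑ θ, (1 + t * XX θ' θ) ^ m := by
  have hlow : ∀ θ : D → Bool, 1 / 2 ≤ 1 + t * XX θ' θ := by
    intro θ
    have h1 := (abs_le.mp (XX_abs θ' θ)).1
    nlinarith
  have h1 : ∑ θ, sg (θ' B) * sg (θ B) * (1 + t * XX θ' θ) ^ m
      = (1 / 2) * ∑ θ, (sg (θ' B) * sg (θ B) *
        ((1 + t * XX θ' θ) ^ m - (1 + t * XX θ' (flip B θ)) ^ m)) := by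
    have h2 : ∑ θ, sg (θ' B) * sg (θ B) * (1 + t * XX θ' (flip B θ)) ^ m
        = -∑ θ, sg (θ' B) * sg (θ B) * (1 + t * XX θ' θ) ^ m := by
      rw [← sum_flip B (fun θ => sg (θ' B) * sg (θ B) * (1 + t * XX θ' (flip B θ)) ^ m),
        ← Finset.sum_neg_distrib]
      apply Finset.sum_congr rfl
      intro θ _
      rw [flip_flip B θ, flip_self, sg_not]
      ring
    have h3 : ∑ θ, (sg (θ' B) * sg (θ B) *
        ((1 + t * XX θ' θ) ^ m - (1 + t * XX θ' (flip B θ)) ^ m))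
        = ∑ θ, sg (θ' B) * sg (θ B) * (1 + t * XX θ' θ) ^ m
          - ∑ θ, sg (θ' B) * sg (θ B) * (1 + t * XX θ' (flip B θ)) ^ m := by
      rw [← Finset.sum_sub_distrib]
      apply Finset.sum_congr rfl
      intro θ _
      ring
    rw [h3, h2]
    ring
  have h4 : ∀ θ, sg (θ' B) * sg (θ B) *
        ((1 + t * XX θ' θ) ^ m - (1 + t * XX θ' (flip B θ)) ^ m)
      ≤ 4 * t * m * ((1 + t * XX θ' θ) ^ m + (1 + t * XX θ' (flip B θ)) ^ m) := by
    intro θ
    have e1 := hlow θ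
    have e2 := hlow (flip B θ)
    have e3 := XX_flip1 B θ' θ
    have p1 : 0 ≤ 4 * t * m * (1 + t * XX θ' θ) ^ m := by
      have : 0 ≤ (1 + t * XX θ' θ) ^ m := pow_nonneg (by linarith) _
      positivity
    have p2 : 0 ≤ 4 * t * m * (1 + t * XX θ' (flip B θ)) ^ m := by
      have : 0 ≤ (1 + t * XX θ' (flip B θ)) ^ m := pow_nonneg (by linarith) _
      positivity
    have hcase : sg (θ' B) * sg (θ B) = 1 ∨ sg (θ' B) * sg (θ B) = -1 := by
      cases θ' B <;> cases θ B <;> simp [sg]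
    rcases hcase with hc | hc
    · rw [hc] at e3 ⊢
      have e4 : 1 + t * XX θ' (flip B θ) = (1 + t * XX θ' θ) - 2 * t := by
        rw [e3]; ring
      have := bern ht e1 (by linarith) m
      rw [← e4] at this
      linarith
    · rw [hc] at e3 ⊢
      have e4 : 1 + t * XX θ' θ = (1 + t * XX θ' (flip B θ)) - 2 * t := by
        rw [e3]; ring
      have := bern ht e2 (by linarith) m
      rw [← e4] at this
      linarith
  rw [h1]
  calc (1 / 2) * ∑ θ, (sg (θ' B) * sg (θ B) *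
        ((1 + t * XX θ' θ) ^ m - (1 + t * XX θ' (flip B θ)) ^ m))
      ≤ (1 / 2) * ∑ θ, 4 * t * m * ((1 + t * XX θ' θ) ^ m + (1 + t * XX θ' (flip B θ)) ^ m) :=
        mul_le_mul_of_nonneg_left (Finset.sum_le_sum fun θ _ => h4 θ) (by norm_num)
    _ = 4 * t * m * ∑ θ, (1 + t * XX θ' θ) ^ m := by
        rw [← Finset.mul_sum, Finset.sum_add_distrib,
          sum_flip B (fun θ => (1 + t * XX θ' θ) ^ m)]
        ring

theorem X_bound {t : ℝ} (ht : 0 ≤ t) (htM : t * Fintype.card D ≤ 1 / 2) (m : ℕ) :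
    ∑ θ' : D → Bool, ∑ θ : D → Bool, XX θ' θ * (1 + t * XX θ' θ) ^ m
      ≤ 4 * t * m * Fintype.card D *
        ∑ θ' : D → Bool, ∑ θ : D → Bool, (1 + t * XX θ' θ) ^ m := by
  have h : ∀ θ' : D → Bool, ∑ θ : D → Bool, XX θ' θ * (1 + t * XX θ' θ) ^ m
      ≤ 4 * t * m * Fintype.card D * ∑ θ : D → Bool, (1 + t * XX θ' θ) ^ m := by
    intro θ'
    calc ∑ θ : D → Bool, XX θ' θ * (1 + t * XX θ' θ) ^ m
        = ∑ θ : D → Bool, ∑ B, sg (θ' B) * sg (θ B) * (1 + t * XX θ' θ) ^ m := by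
          apply Finset.sum_congr rfl
          intro θ _
          rw [← Finset.sum_mul]
          rfl
      _ = ∑ B, ∑ θ : D → Bool, sg (θ' B) * sg (θ B) * (1 + t * XX θ' θ) ^ m :=
          Finset.sum_comm
      _ ≤ ∑ B : D, 4 * t * m * ∑ θ, (1 + t * XX θ' θ) ^ m :=
          Finset.sum_le_sum fun B _ => xi_bound ht htM B m θ'
      _ = 4 * t * m * Fintype.card D * ∑ θ : D → Bool, (1 + t * XX θ' θ) ^ m := by
          rw [Finset.sum_const, Finset.card_univ, nsmul_eq_mul]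
          ring
  rw [Finset.mul_sum]
  exact Finset.sum_le_sum fun θ' _ => h θ'

/-- The average over all sign vectors of a function of two coordinates. -/
theorem sum_two {A : Type*} [AddCommGroup A] [Module ℂ A] {i j : D} (hij : i ≠ j)
    (F : Bool → Bool → A) :
    (4 : ℂ) • ∑ e : D → Bool, F (e i) (e j)
      = ((2 : ℂ) ^ Fintype.card D) • ∑ s, ∑ s', F s s' := by
  have h1 : ∑ e : D → Bool, F (!e i) (e j) = ∑ e : D → Bool, F (e i) (e j) := by
    rw [← sum_flip i (fun e => F (e i) (e j))]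
    apply Finset.sum_congr rfl
    intro e _
    rw [flip_self, flip_ne hij.symm]
  have h2 : ∑ e : D → Bool, F (e i) (!e j) = ∑ e : D → Bool, F (e i) (e j) := by
    rw [← sum_flip j (fun e => F (e i) (e j))]
    apply Finset.sum_congr rfl
    intro e _
    rw [flip_self, flip_ne hij]
  have h3 : ∑ e : D → Bool, F (!e i) (!e j) = ∑ e : D → Bool, F (e i) (e j) := by
    rw [← h2, ← sum_flip i (fun e => F (e i) (!e j))]
    apply Finset.sum_congr rfl
    intro e _
    rw [flip_self, flip_ne hij.symm]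
  have h4 : ∀ e : D → Bool, F (e i) (e j) + F (!e i) (e j) + F (e i) (!e j) + F (!e i) (!e j)
      = ∑ s, ∑ s', F s s' := by
    intro e
    simp only [Fintype.sum_bool]
    cases e i <;> cases e j <;> simp only [Bool.not_true, Bool.not_false] <;> abel
  have h5 : ∑ e : D → Bool, (F (e i) (e j) + F (!e i) (e j) + F (e i) (!e j) + F (!e i) (!e j))
      = (4 : ℂ) • ∑ e : D → Bool, F (e i) (e j) := by
    rw [Finset.sum_add_distrib, Finset.sum_add_distrib, Finset.sum_add_distrib, h1, h2, h3]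
    have : (4 : ℂ) = 1 + 1 + 1 + 1 := by norm_num
    rw [this, add_smul, add_smul, add_smul, one_smul]
  rw [← h5]
  simp_rw [h4]
  rw [Finset.sum_const, Finset.card_univ, Fintype.card_fun, Fintype.card_bool]
  rw [← Nat.cast_smul_eq_nsmul ℂ]
  push_cast
  rfl

end Pool.Agent.T6.H42U
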