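import Pool.Agent.T6.H42U.Tens

/-!
# Norm and kinetic energy of sums of tensor products
-/

set_option autoImplicit false

noncomputable section

namespace Pool.Agent.T6.H42U

open MeasureTheory Pool.Agent.T6.H42
open scoped ContDiff FourierTransform SchwartzMap ComplexConjugate

/-- Overlap. -/
def ov (u v : E3 → ℂ) : ℂ := ∫ y, conj (u y) * v y

/-- The weight `|p|^α`. -/
def wt (α : ℝ) (y : E3) : ℝ := (2 * Real.pi * ‖y‖) ^ α

/-- Kinetic form on the Fourier side. -/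
def kf (α : ℝ) (u v : E3 → ℂ) : ℂ := ∫ y, (wt α y : ℂ) * (conj (𝓕 u y) * 𝓕 v y)

theorem wt_nonneg (α : ℝ) (y : E3) : 0 ≤ wt α y := by
  unfold wt; positivity

theorem wt_cont {α : ℝ} (hα : 0 ≤ α) : Continuous (wt α) := by
  unfold wt
  exact (continuous_const.mul continuous_norm).rpow_const (fun _ => Or.inr hα)

theorem wt_le {α : ℝ} (hα : 0 ≤ α) : ∃ (C : ℝ) (k : ℕ), 0 ≤ C ∧ ∀ y : E3, wt α y ≤ C * (1 + ‖y‖ ^ k) := by
  obtain ⟨k, hk⟩ := exists_nat_ge α
  refine ⟨(2 * Real.pi) ^ α, k, by positivity, fun y => ?_⟩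
  unfold wt
  rw [Real.mul_rpow (by positivity) (norm_nonneg _)]
  apply mul_le_mul_of_nonneg_left _ (by positivity)
  rcases le_total ‖y‖ 1 with h | h
  · have : ‖y‖ ^ α ≤ 1 := Real.rpow_le_one (norm_nonneg _) h hα
    have h2 : 0 ≤ ‖y‖ ^ k := by positivity
    linarith
  · have : ‖y‖ ^ α ≤ ‖y‖ ^ (k : ℝ) := Real.rpow_le_rpow_of_exponent_le h hk
    rw [Real.rpow_natCast] at this
    linarith

theorem integrable_weight {α : ℝ} (hα : 0 ≤ α) (f g : 𝓢(E3, ℂ)) :
    Integrable (fun y => (wt α y : ℂ) * (conj (f y) * g y)) := by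
  obtain ⟨C, k, hC, h⟩ := wt_le hα
  obtain ⟨D, _, hD⟩ := f.decay 0 0
  have hf : ∀ y, ‖f y‖ ≤ D := by
    intro y
    simpa using hD y
  have h1 : Integrable (fun y : E3 => C * D * (‖y‖ ^ 0 * ‖g y‖ + ‖y‖ ^ k * ‖g y‖)) :=
    ((g.integrable_pow_mul volume 0).add (g.integrable_pow_mul volume k)).const_mul _
  refine h1.mono' ?_ ?_
  · apply Continuous.aestronglyMeasurable
    exact (Complex.continuous_ofReal.comp (wt_cont hα)).mul
      ((Complex.continuous_conj.comp f.continuous).mul g.continuous)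
  · filter_upwards with y
    rw [norm_mul, norm_mul, Complex.norm_real, Real.norm_of_nonneg (wt_nonneg α y),
      RCLike.norm_conj]
    have h2 := h y
    have h3 := hf y
    have h4 : 0 ≤ ‖g y‖ := norm_nonneg _
    calc wt α y * (‖f y‖ * ‖g y‖) ≤ (C * (1 + ‖y‖ ^ k)) * (D * ‖g y‖) := by
          apply mul_le_mul h2 _ (by positivity) (by positivity)
          exact mul_le_mul_of_nonneg_right h3 h4
      _ = C * D * (‖y‖ ^ 0 * ‖g y‖ + ‖y‖ ^ k * ‖g y‖) := by ring

theorem integrable_conj_mul (f g : 𝓢(E3, ℂ)) : Integrable (fun y => conj (f y) * g y) := by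
  have := integrable_weight le_rfl f g
  simpa [wt] using this

theorem Nice.integrable_conj_mul {u v : E3 → ℂ} (hu : Nice u) (hv : Nice v) :
    Integrable (fun y => conj (u y) * v y) :=
  Pool.Agent.T6.H42U.integrable_conj_mul hu.toS hv.toS

theorem Nice.integrable_kf {α : ℝ} (hα : 0 ≤ α) {u v : E3 → ℂ} (hu : Nice u) (hv : Nice v) :
    Integrable (fun y => (wt α y : ℂ) * (conj (𝓕 u y) * 𝓕 v y)) :=
  integrable_weight hα (𝓕 hu.toS) (𝓕 hv.toS)

/-- Plancherel. -/
theorem Nice.plancherel {u v : E3 → ℂ} (hu : Nice u) (hv : Nice v) :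
    ∫ y, conj (𝓕 u y) * 𝓕 v y = ov u v := by
  have h := SchwartzMap.integral_inner_fourier_fourier hu.toS hv.toS
  simp only [RCLike.inner_apply'] at h
  exact h

section weights

variable {N : ℕ}

theorem prod_update {N : ℕ} (G : Fin N → E3 → ℂ) (w : E3 → ℂ) (i : Fin N) (x : Fin N → E3) :
    w (x i) * ∏ j, G j (x j) = ∏ j, (Function.update G i (fun y => w y * G i y)) j (x j) := by
  rw [← Finset.mul_prod_erase Finset.univ _ (Finset.mem_univ i),
    ← Finset.mul_prod_erase Finset.univ (fun j => (Function.update G i (fun y => w y * G i y)) j (x j))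
      (Finset.mem_univ i)]
  rw [Function.update_self, mul_assoc]
  congr 2
  apply Finset.prod_congr rfl
  intro j hj
  rw [Function.update_of_ne (Finset.ne_of_mem_erase hj)]

theorem integral_weight_prod (G : Fin N → E3 → ℂ) (w : E3 → ℂ) (i : Fin N) :
    ∫ x : Cfg N, w (pos x i) * ∏ j, G j (pos x j)
      = (∫ y, w y * G i y) * ∏ j ∈ Finset.univ.erase i, ∫ y, G j y := by
  have h : ∀ x : Cfg N, w (pos x i) * ∏ j, G j (pos x j)
      = ∏ j, (Function.update G i (fun y => w y * G i y)) j (pos x j) :=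
    fun x => prod_update G w i (fun j => pos x j)
  simp_rw [h]
  rw [integral_prod_pos, ← Finset.mul_prod_erase Finset.univ _ (Finset.mem_univ i)]
  rw [Function.update_self]
  congr 1
  apply Finset.prod_congr rfl
  intro j hj
  rw [Function.update_of_ne (Finset.ne_of_mem_erase hj)]

theorem integrable_weight_prod (G : Fin N → E3 → ℂ) (w : E3 → ℂ) (i : Fin N)
    (hG : ∀ j, Integrable (G j)) (hw : Integrable (fun y => w y * G i y)) :
    Integrable (fun x : Cfg N => w (pos x i) * ∏ j, G j (pos x j)) := by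
  have h : ∀ x : Cfg N, w (pos x i) * ∏ j, G j (pos x j)
      = ∏ j, (Function.update G i (fun y => w y * G i y)) j (pos x j) :=
    fun x => prod_update G w i (fun j => pos x j)
  simp_rw [h]
  apply integrable_prod_pos
  intro j
  by_cases hj : j = i
  · subst hj
    rw [Function.update_self]
    exact hw
  · rw [Function.update_of_ne hj]
    exact hG j

end weights

section superposition

variable {N : ℕ} {Θ : Type*} [Fintype Θ]

/-- Superposition of tensor products. -/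
def psi {u : Θ → Fin N → E3 → ℂ} (hu : ∀ θ i, Nice (u θ i)) : 𝓢(Cfg N, ℂ) :=
  ∑ θ, tensS (hu θ)

theorem psi_apply {u : Θ → Fin N → E3 → ℂ} (hu : ∀ θ i, Nice (u θ i)) (x : Cfg N) :
    psi hu x = ∑ θ, ∏ i, u θ i (pos x i) := by
  unfold psi
  rw [sum_apply]
  rfl

theorem fourier_psi {u : Θ → Fin N → E3 → ℂ} (hu : ∀ θ i, Nice (u θ i)) (ξ : Cfg N) :
    (𝓕 (psi hu) : 𝓢(Cfg N, ℂ)) ξ = ∑ θ, ∏ i, 𝓕 (u θ i) (pos ξ i) := by
  have h : (𝓕 (psi hu) : 𝓢(Cfg N, ℂ)) = ∑ θ, (𝓕 (tensS (hu θ)) : 𝓢(Cfg N, ℂ)) := by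
    unfold psi
    exact map_sum (SchwartzMap.fourierTransformCLM ℂ (V := Cfg N) (E := ℂ)) (fun θ => tensS (hu θ)) Finset.univ
  rw [h, sum_apply]
  apply Finset.sum_congr rfl
  intro θ _
  rw [fourier_tensS]
  rfl

theorem normSq_sum_prod (a : Θ → Fin N → ℂ) :
    (((‖∑ θ, ∏ i, a θ i‖ ^ 2 : ℝ)) : ℂ) = ∑ θ', ∑ θ, ∏ i, (conj (a θ' i) * a θ i) := by
  push_cast
  rw [← Complex.conj_mul', map_sum, Finset.sum_mul]
  apply Finset.sum_congr rfl
  intro θ' _
  rw [Finset.mul_sum]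
  apply Finset.sum_congr rfl
  intro θ _
  rw [map_prod, Finset.prod_mul_distrib]

theorem norm_form {u : Θ → Fin N → E3 → ℂ} (hu : ∀ θ i, Nice (u θ i)) :
    ((∫ x, ‖psi hu x‖ ^ 2 : ℝ) : ℂ) = ∑ θ', ∑ θ, ∏ i, ov (u θ' i) (u θ i) := by
  rw [← integral_complex_ofReal]
  simp_rw [psi_apply, normSq_sum_prod]
  rw [integral_finsetSum]
  · apply Finset.sum_congr rfl
    intro θ' _
    rw [integral_finsetSum]
    · apply Finset.sum_congr rfl
      intro θ _
      exact integral_prod_pos (fun i y => conj (u θ' i y) * u θ i y)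
    · intro θ _
      exact integrable_prod_pos (fun i y => conj (u θ' i y) * u θ i y)
        (fun i => (hu θ' i).integrable_conj_mul (hu θ i))
  · intro θ' _
    apply integrable_finsetSum
    intro θ _
    exact integrable_prod_pos (fun i y => conj (u θ' i y) * u θ i y)
      (fun i => (hu θ' i).integrable_conj_mul (hu θ i))

theorem kin_form {α : ℝ} (hα : 0 ≤ α) {u : Θ → Fin N → E3 → ℂ} (hu : ∀ θ i, Nice (u θ i)) :
    ((∫ ξ, (∑ i, wt α (pos ξ i)) * ‖(𝓕 (psi hu) : 𝓢(Cfg N, ℂ)) ξ‖ ^ 2 : ℝ) : ℂ)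
      = ∑ θ', ∑ θ, ∑ i, kf α (u θ' i) (u θ i) *
          ∏ j ∈ Finset.univ.erase i, ov (u θ' j) (u θ j) := by
  rw [← integral_complex_ofReal]
  simp_rw [fourier_psi, Complex.ofReal_mul, normSq_sum_prod, Complex.ofReal_sum, Finset.mul_sum,
    Finset.sum_mul]
  have hint : ∀ θ' θ i, Integrable (fun x : Cfg N => (wt α (pos x i) : ℂ) *
      ∏ j, (conj (𝓕 (u θ' j) (pos x j)) * 𝓕 (u θ j) (pos x j))) := by
    intro θ' θ i
    exact integrable_weight_prod (fun j y => conj (𝓕 (u θ' j) y) * 𝓕 (u θ j) y)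
      (fun y => (wt α y : ℂ)) i
      (fun j => Pool.Agent.T6.H42U.integrable_conj_mul (𝓕 (hu θ' j).toS) (𝓕 (hu θ j).toS))
      ((hu θ' i).integrable_kf hα (hu θ i))
  rw [integral_finsetSum _ (fun θ' _ => integrable_finsetSum _ fun θ _ =>
    integrable_finsetSum _ fun i _ => hint θ' θ i)]
  apply Finset.sum_congr rfl
  intro θ' _
  rw [integral_finsetSum _ (fun θ _ => integrable_finsetSum _ fun i _ => hint θ' θ i)]
  apply Finset.sum_congr rfl
  intro θ _
  rw [integral_finsetSum _ (fun i _ => hint θ' θ i)]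
  apply Finset.sum_congr rfl
  intro i _
  rw [integral_weight_prod (fun j y => conj (𝓕 (u θ' j) y) * 𝓕 (u θ j) y)
      (fun y => (wt α y : ℂ)) i]
  congr 1
  apply Finset.prod_congr rfl
  intro j _
  exact (hu θ' j).plancherel (hu θ j)

theorem kin_integrable {α : ℝ} (hα : 0 ≤ α) {u : Θ → Fin N → E3 → ℂ} (hu : ∀ θ i, Nice (u θ i)) :
    Integrable (fun ξ => (∑ i, wt α (pos ξ i)) * ‖(𝓕 (psi hu) : 𝓢(Cfg N, ℂ)) ξ‖ ^ 2) := by
  have hint : ∀ θ' θ i, Integrable (fun x : Cfg N => (wt α (pos x i) : ℂ) *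
      ∏ j, (conj (𝓕 (u θ' j) (pos x j)) * 𝓕 (u θ j) (pos x j))) := by
    intro θ' θ i
    exact integrable_weight_prod (fun j y => conj (𝓕 (u θ' j) y) * 𝓕 (u θ j) y)
      (fun y => (wt α y : ℂ)) i
      (fun j => Pool.Agent.T6.H42U.integrable_conj_mul (𝓕 (hu θ' j).toS) (𝓕 (hu θ j).toS))
      ((hu θ' i).integrable_kf hα (hu θ i))
  have h : Integrable (fun ξ : Cfg N => (((∑ i, wt α (pos ξ i)) *
      ‖(𝓕 (psi hu) : 𝓢(Cfg N, ℂ)) ξ‖ ^ 2 : ℝ) : ℂ)) := by
    simp_rw [fourier_psi, Complex.ofReal_mul, normSq_sum_prod, Complex.ofReal_sum, Finset.mul_sum,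
      Finset.sum_mul]
    exact integrable_finsetSum _ fun θ' _ => integrable_finsetSum _ fun θ _ =>
      integrable_finsetSum _ fun i _ => hint θ' θ i
  simpa only [RCLike.re_to_complex, Complex.ofReal_re] using h.re

end superposition

end Pool.Agent.T6.H42U
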