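import Pool.Agent.T6.H42U.Modes

/-!
# Scaled modes
-/

set_option autoImplicit false
set_option linter.unusedSectionVars false

noncomputable section

namespace Pool.Agent.T6.H42U

open MeasureTheory Pool.Agent.T6.H42
open scoped ContDiff FourierTransform SchwartzMap ComplexConjugate ENNReal

theorem integral_dil {X : Type*} [NormedAddCommGroup X] [NormedSpace ℝ X] (F : E3 → X) {s : ℝ}
    (hs : 0 < s) (z : E3) : ∫ x, F (s⁻¹ • (x - z)) = (s ^ 3) • ∫ x, F x := by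
  rw [integral_sub_right_eq_self (fun x => F (s⁻¹ • x)) z, Measure.integral_comp_smul]
  congr 1
  have : Module.finrank ℝ E3 = 3 := by simp
  rw [this, abs_of_pos (by positivity)]
  field_simp

/-- Dilation and translation, unitary on `L²`. -/
def dil (s : ℝ) (z : E3) (u : E3 → ℂ) (x : E3) : ℂ :=
  ((s ^ (-(3 / 2) : ℝ) : ℝ) : ℂ) * u (s⁻¹ • (x - z))

theorem sq_factor {s : ℝ} (hs : 0 < s) : (s ^ (-(3 / 2) : ℝ)) * (s ^ (-(3 / 2) : ℝ)) = (s ^ 3)⁻¹ := by
  rw [← Real.rpow_add hs]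
  norm_num

theorem sq_factorC {s : ℝ} (hs : 0 < s) :
    ((s ^ (-(3 / 2) : ℝ) : ℝ) : ℂ) * ((s ^ (-(3 / 2) : ℝ) : ℝ) : ℂ) = (((s ^ 3)⁻¹ : ℝ) : ℂ) := by
  rw [← Complex.ofReal_mul, sq_factor hs]

theorem dil_nice {s : ℝ} (hs : 0 < s) (z : E3) {u : E3 → ℂ} (hu : Nice u) : Nice (dil s z u) := by
  refine ⟨?_, ?_⟩
  · unfold dil
    apply contDiff_const.mul
    have h1 : ContDiff ℝ ∞ (fun x : E3 => s⁻¹ • (x - z)) := by fun_prop
    exact hu.smooth.comp h1
  · obtain ⟨ρ, hρ, h⟩ := hu.exists_bound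
    refine HasCompactSupport.intro (isCompact_closedBall z (s * ρ)) ?_
    intro x hx
    rw [Metric.mem_closedBall, not_le, dist_eq_norm] at hx
    unfold dil
    rw [h, mul_zero]
    rw [norm_smul, Real.norm_of_nonneg (by positivity)]
    rw [← div_eq_inv_mul, lt_div_iff₀ hs]
    linarith

theorem dil_real (s : ℝ) (z : E3) {u : E3 → ℂ} (hu : ∀ x, conj (u x) = u x) (x : E3) :
    conj (dil s z u x) = dil s z u x := by
  unfold dil
  rw [map_mul, Complex.conj_ofReal, hu]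

theorem ov_dil {s : ℝ} (hs : 0 < s) (z : E3) (u v : E3 → ℂ) :
    ov (dil s z u) (dil s z v) = ov u v := by
  unfold ov
  have h : ∀ x, conj (dil s z u x) * dil s z v x
      = (fun y => (((s ^ 3)⁻¹ : ℝ) : ℂ) * (conj (u y) * v y)) (s⁻¹ • (x - z)) := by
    intro x
    simp only [dil]
    rw [map_mul, Complex.conj_ofReal, ← sq_factorC hs]
    ring
  simp_rw [h]
  rw [integral_dil (fun y => (((s ^ 3)⁻¹ : ℝ) : ℂ) * (conj (u y) * v y)) hs z, integral_const_mul,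
    Complex.real_smul, ← mul_assoc, ← Complex.ofReal_mul, mul_inv_cancel₀ (by positivity),
    Complex.ofReal_one, one_mul]

theorem integral_dil_fun {s : ℝ} (hs : 0 < s) (z : E3) (u : E3 → ℂ) :
    ∫ x, dil s z u x = ((s ^ (3 / 2 : ℝ) : ℝ) : ℂ) * ∫ x, u x := by
  unfold dil
  rw [integral_const_mul, integral_dil u hs z, Complex.real_smul, ← mul_assoc,
    ← Complex.ofReal_mul]
  congr 3
  rw [← Real.rpow_natCast s 3, ← Real.rpow_add hs]
  norm_num

/-- Real kinetic energy. -/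
def kr (α : ℝ) (u : E3 → ℂ) : ℝ := ∫ y, wt α y * ‖𝓕 u y‖ ^ 2

theorem kf_self (α : ℝ) (u : E3 → ℂ) : kf α u u = (kr α u : ℂ) := by
  unfold kf kr
  rw [← integral_complex_ofReal]
  congr 1
  funext y
  rw [Complex.conj_mul']
  push_cast
  rfl

theorem kr_nonneg (α : ℝ) (u : E3 → ℂ) : 0 ≤ kr α u := by
  unfold kr
  apply integral_nonneg
  intro y
  exact mul_nonneg (wt_nonneg α y) (sq_nonneg _)

theorem fourier_dil {s : ℝ} (hs : 0 < s) (z : E3) (u : E3 → ℂ) (y : E3) :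
    ‖𝓕 (dil s z u) y‖ ^ 2 = s ^ 3 * ‖𝓕 u (s • y)‖ ^ 2 := by
  have h1 : 𝓕 (dil s z u) y = ((s ^ 3 : ℝ) : ℂ) * (((s ^ (-(3 / 2) : ℝ) : ℝ) : ℂ) *
      (Complex.exp ((↑(-2 * Real.pi * inner ℝ z y)) * Complex.I) * 𝓕 u (s • y))) := by
    rw [Real.fourier_eq', Real.fourier_eq']
    have h : ∀ x, Complex.exp ((↑(-2 * Real.pi * inner ℝ x y)) * Complex.I) • dil s z u x
        = (fun x' => ((s ^ (-(3 / 2) : ℝ) : ℝ) : ℂ) *
          (Complex.exp ((↑(-2 * Real.pi * inner ℝ z y)) * Complex.I) *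
          (Complex.exp ((↑(-2 * Real.pi * inner ℝ x' (s • y))) * Complex.I) • u x')))
          (s⁻¹ • (x - z)) := by
      intro x
      simp only [dil, smul_eq_mul]
      have e1 : inner ℝ (s⁻¹ • (x - z)) (s • y) = inner ℝ x y - inner ℝ z y := by
        rw [real_inner_smul_left, real_inner_smul_right, inner_sub_left]
        field_simp
      rw [e1]
      have e2 : Complex.exp ((↑(-2 * Real.pi * inner ℝ x y)) * Complex.I)
          = Complex.exp ((↑(-2 * Real.pi * inner ℝ z y)) * Complex.I) *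
            Complex.exp ((↑(-2 * Real.pi * (inner ℝ x y - inner ℝ z y))) * Complex.I) := by
        rw [← Complex.exp_add]
        congr 1
        push_cast
        ring
      rw [e2]
      ring
    simp_rw [h]
    rw [integral_dil (fun x' => ((s ^ (-(3 / 2) : ℝ) : ℝ) : ℂ) *
          (Complex.exp ((↑(-2 * Real.pi * inner ℝ z y)) * Complex.I) *
          (Complex.exp ((↑(-2 * Real.pi * inner ℝ x' (s • y))) * Complex.I) • u x'))) hs z,
      integral_const_mul, integral_const_mul, Complex.real_smul]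
  have h2 : ‖Complex.exp ((↑(-2 * Real.pi * inner ℝ z y)) * Complex.I)‖ = 1 :=
    Complex.norm_exp_ofReal_mul_I _
  rw [h1, norm_mul, norm_mul, norm_mul, h2, one_mul, Complex.norm_real, Complex.norm_real,
    Real.norm_of_nonneg (by positivity), Real.norm_of_nonneg (by positivity), mul_pow, mul_pow,
    ← mul_assoc]
  congr 1
  have := sq_factor hs
  rw [sq (s ^ (-(3 / 2) : ℝ)), this]
  field_simp

theorem kr_dil {α : ℝ} {s : ℝ} (hs : 0 < s) (z : E3) (u : E3 → ℂ) :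
    kr α (dil s z u) = s ^ (-α) * kr α u := by
  unfold kr
  simp_rw [fourier_dil hs]
  have h : ∀ y : E3, wt α y * (s ^ 3 * ‖𝓕 u (s • y)‖ ^ 2)
      = (fun y' => s ^ 3 * (s ^ (-α) * (wt α y' * ‖𝓕 u y'‖ ^ 2))) (s • y) := by
    intro y
    simp only []
    have e1 : wt α (s • y) = s ^ α * wt α y := by
      unfold wt
      rw [norm_smul, Real.norm_of_nonneg hs.le, ← Real.mul_rpow hs.le (by positivity)]
      congr 1
      ring
    have e2 : s ^ (-α) * s ^ α = 1 := by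
      rw [← Real.rpow_add hs]
      simp
    rw [e1]
    linear_combination (-(s ^ 3 * wt α y * ‖𝓕 u (s • y)‖ ^ 2)) * e2
  simp_rw [h]
  rw [Measure.integral_comp_smul volume
    (fun y' : E3 => s ^ 3 * (s ^ (-α) * (wt α y' * ‖𝓕 u y'‖ ^ 2))) s]
  have : Module.finrank ℝ E3 = 3 := by simp
  rw [this, integral_const_mul, integral_const_mul, abs_of_pos (by positivity), smul_eq_mul]
  field_simp

theorem cf_smul (c : ℂ) (F : E3 → ℂ) : cf (fun x => c * F x) (fun x => c * F x) = c ^ 2 * cf F F := by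
  unfold cf
  rw [← integral_const_mul]
  congr 1
  funext p
  ring

theorem cf_dil {s : ℝ} (hs : 0 < s) (z : E3) {u : E3 → ℂ} (hu : Nice u) :
    cf (dil s z u) (dil s z u) = ((s ^ 2 : ℝ) : ℂ) * cf u u := by
  unfold cf
  have hd := dil_nice hs z hu
  rw [Measure.volume_eq_prod, integral_prod _ (cf_integrable hd hd),
    integral_prod _ (cf_integrable hu hu)]
  have h1 : ∀ x y : E3, ((‖x - y‖⁻¹ : ℝ) : ℂ) * (dil s z u x * dil s z u y)
      = (fun y' => (((s ^ 3)⁻¹ * s⁻¹ : ℝ) : ℂ) * (((‖s⁻¹ • (x - z) - y'‖⁻¹ : ℝ) : ℂ) *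
        (u (s⁻¹ • (x - z)) * u y'))) (s⁻¹ • (y - z)) := by
    intro x y
    simp only [dil]
    have e1 : s⁻¹ • (x - z) - s⁻¹ • (y - z) = s⁻¹ • (x - y) := by
      rw [← smul_sub]
      congr 1
      abel
    rw [e1, norm_smul, Real.norm_of_nonneg (by positivity : (0 : ℝ) ≤ s⁻¹), mul_inv, inv_inv]
    have e2 := sq_factorC hs
    have e3 : (s : ℂ) ≠ 0 := by exact_mod_cast hs.ne'
    have e4 : ((s : ℂ) ^ 3)⁻¹ * (s : ℂ)⁻¹ * s = ((s : ℂ) ^ 3)⁻¹ := by field_simp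
    push_cast at e2 ⊢
    linear_combination ((‖x - y‖ : ℂ)⁻¹ * u (s⁻¹ • (x - z)) * u (s⁻¹ • (y - z))) * e2
      - ((‖x - y‖ : ℂ)⁻¹ * u (s⁻¹ • (x - z)) * u (s⁻¹ • (y - z))) * e4
  simp_rw [h1]
  have h2 : ∀ x : E3, ∫ y, (fun y' => (((s ^ 3)⁻¹ * s⁻¹ : ℝ) : ℂ) *
        (((‖s⁻¹ • (x - z) - y'‖⁻¹ : ℝ) : ℂ) *
        (u (s⁻¹ • (x - z)) * u y'))) (s⁻¹ • (y - z))
      = (fun x' => (s⁻¹ : ℂ) * ∫ y', (((‖x' - y'‖⁻¹ : ℝ) : ℂ) * (u x' * u y'))) (s⁻¹ • (x - z)) := by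
    intro x
    rw [integral_dil (fun y' => (((s ^ 3)⁻¹ * s⁻¹ : ℝ) : ℂ) *
        (((‖s⁻¹ • (x - z) - y'‖⁻¹ : ℝ) : ℂ) * (u (s⁻¹ • (x - z)) * u y'))) hs z,
      integral_const_mul, Complex.real_smul, ← mul_assoc, ← Complex.ofReal_mul]
    congr 1
    rw [← mul_assoc, mul_inv_cancel₀ (by positivity), one_mul]
    push_cast
    rfl
  simp_rw [h2]
  rw [integral_dil (fun x' => (s⁻¹ : ℂ) * ∫ y', (((‖x' - y'‖⁻¹ : ℝ) : ℂ) * (u x' * u y'))) hs z,
    integral_const_mul, Complex.real_smul, ← mul_assoc]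
  congr 1
  have e3 : (s : ℂ) ≠ 0 := by exact_mod_cast hs.ne'
  push_cast
  field_simp

end Pool.Agent.T6.H42U
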