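import Pool.Agent.T6.H42U.Pair
import Pool.Agent.T6.H42U.Flip

/-!
# Superpositions of one-particle modes with random signs
-/

set_option autoImplicit false

noncomputable section

namespace Pool.Agent.T6.H42U

open MeasureTheory Pool.Agent.T6.H42
open scoped ContDiff FourierTransform SchwartzMap ComplexConjugate

section lin

variable {O : Type*} [Fintype O]

/-- Linear combination of functions. -/
def lc (c : O → ℂ) (f : O → E3 → ℂ) (x : E3) : ℂ := ∑ o, c o * f o x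

theorem lc_nice (c : O → ℂ) {f : O → E3 → ℂ} (hf : ∀ o, Nice (f o)) : Nice (lc c f) :=
  Nice.sum Finset.univ (fun o _ => (hf o).smul (c o))

theorem fourier_lc (c : O → ℂ) {f : O → E3 → ℂ} (hf : ∀ o, Nice (f o)) (y : E3) :
    𝓕 (lc c f) y = ∑ o, c o * 𝓕 (f o) y := by
  set S : 𝓢(E3, ℂ) := ∑ o, c o • (hf o).toS with hS
  have h1 : (S : E3 → ℂ) = lc c f := by
    funext x
    rw [hS, sum_apply]
    rfl
  have h2 : (𝓕 S : 𝓢(E3, ℂ)) = ∑ o, c o • (𝓕 (hf o).toS : 𝓢(E3, ℂ)) := by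
    have := map_sum (SchwartzMap.fourierTransformCLM ℂ (V := E3) (E := ℂ))
      (fun o => c o • (hf o).toS) Finset.univ
    rw [SchwartzMap.fourierTransformCLM_apply] at this
    rw [hS, this]
    apply Finset.sum_congr rfl
    intro o _
    rw [map_smul]
    rfl
  have h3 : 𝓕 (lc c f) y = (𝓕 S : 𝓢(E3, ℂ)) y := by
    rw [SchwartzMap.fourier_coe, h1]
  rw [h3, h2, sum_apply]
  rfl

theorem ov_lc (c d : O → ℂ) {f g : O → E3 → ℂ} (hf : ∀ o, Nice (f o)) (hg : ∀ o, Nice (g o)) :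
    ov (lc c f) (lc d g) = ∑ o, ∑ o', conj (c o) * d o' * ov (f o) (g o') := by
  unfold ov
  have h : ∀ y, conj (lc c f y) * lc d g y
      = ∑ o, ∑ o', (conj (c o) * d o') * (conj (f o y) * g o' y) := by
    intro y
    unfold lc
    rw [map_sum, Finset.sum_mul]
    apply Finset.sum_congr rfl
    intro o _
    rw [Finset.mul_sum]
    apply Finset.sum_congr rfl
    intro o' _
    rw [map_mul]
    ring
  simp_rw [h]
  have hint : ∀ o o', Integrable (fun y => (conj (c o) * d o') * (conj (f o y) * g o' y)) :=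
    fun o o' => ((hf o).integrable_conj_mul (hg o')).const_mul _
  rw [integral_finsetSum _ fun o _ => integrable_finsetSum _ fun o' _ => hint o o']
  apply Finset.sum_congr rfl
  intro o _
  rw [integral_finsetSum _ fun o' _ => hint o o']
  apply Finset.sum_congr rfl
  intro o' _
  rw [integral_const_mul]

theorem kf_lc {α : ℝ} (hα : 0 ≤ α) (c d : O → ℂ) {f g : O → E3 → ℂ} (hf : ∀ o, Nice (f o))
    (hg : ∀ o, Nice (g o)) :
    kf α (lc c f) (lc d g) = ∑ o, ∑ o', conj (c o) * d o' * kf α (f o) (g o') := by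
  unfold kf
  have h : ∀ y, (wt α y : ℂ) * (conj (𝓕 (lc c f) y) * 𝓕 (lc d g) y)
      = ∑ o, ∑ o', (conj (c o) * d o') * ((wt α y : ℂ) * (conj (𝓕 (f o) y) * 𝓕 (g o') y)) := by
    intro y
    rw [fourier_lc c hf, fourier_lc d hg, map_sum, Finset.sum_mul, Finset.mul_sum]
    apply Finset.sum_congr rfl
    intro o _
    rw [Finset.mul_sum, Finset.mul_sum]
    apply Finset.sum_congr rfl
    intro o' _
    rw [map_mul]
    ring
  simp_rw [h]
  have hint : ∀ o o', Integrable (fun y => (conj (c o) * d o') *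
      ((wt α y : ℂ) * (conj (𝓕 (f o) y) * 𝓕 (g o') y))) :=
    fun o o' => ((hf o).integrable_kf hα (hg o')).const_mul _
  rw [integral_finsetSum _ fun o _ => integrable_finsetSum _ fun o' _ => hint o o']
  apply Finset.sum_congr rfl
  intro o _
  rw [integral_finsetSum _ fun o' _ => hint o o']
  apply Finset.sum_congr rfl
  intro o' _
  rw [integral_const_mul]

theorem cf_lc {O' : Type*} [Fintype O'] (c : O → ℂ) (d : O' → ℂ) {f : O → E3 → ℂ}
    {g : O' → E3 → ℂ} (hf : ∀ o, Nice (f o)) (hg : ∀ o, Nice (g o)) :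
    cf (lc c f) (lc d g) = ∑ o, ∑ o', c o * d o' * cf (f o) (g o') := by
  unfold cf
  have h : ∀ p : E3 × E3, ((‖p.1 - p.2‖⁻¹ : ℝ) : ℂ) * (lc c f p.1 * lc d g p.2)
      = ∑ o, ∑ o', (c o * d o') * (((‖p.1 - p.2‖⁻¹ : ℝ) : ℂ) * (f o p.1 * g o' p.2)) := by
    intro p
    unfold lc
    rw [Finset.sum_mul, Finset.mul_sum]
    apply Finset.sum_congr rfl
    intro o _
    rw [Finset.mul_sum, Finset.mul_sum]
    apply Finset.sum_congr rfl
    intro o' _
    ring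
  simp_rw [h]
  have hint : ∀ o o', Integrable (fun p : E3 × E3 => (c o * d o') *
      (((‖p.1 - p.2‖⁻¹ : ℝ) : ℂ) * (f o p.1 * g o' p.2))) :=
    fun o o' => (cf_integrable (hf o) (hg o')).const_mul _
  rw [integral_finsetSum _ fun o _ => integrable_finsetSum _ fun o' _ => hint o o']
  apply Finset.sum_congr rfl
  intro o _
  rw [integral_finsetSum _ fun o' _ => hint o o']
  apply Finset.sum_congr rfl
  intro o' _
  rw [integral_const_mul]

end lin

theorem sum3_comm {A B C : Type*} [Fintype A] [Fintype B] [Fintype C] (T : A → B → C → ℂ) :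
    ∑ x, ∑ a, ∑ b, T x a b = ∑ a, ∑ b, ∑ x, T x a b := by
  rw [Finset.sum_comm]
  apply Finset.sum_congr rfl
  intro a _
  rw [Finset.sum_comm]

theorem Nice.conj_mul {u v : E3 → ℂ} (hu : Nice u) (hv : Nice v) :
    Nice (fun x => conj (u x) * v x) := by
  refine ⟨?_, ?_⟩
  · exact (Complex.conjCLE.contDiff.comp hu.smooth).mul hv.smooth
  · exact hv.cpt.mul_left

theorem Nice.mul {u v : E3 → ℂ} (hu : Nice u) (hv : Nice v) :
    Nice (fun x => u x * v x) :=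
  ⟨hu.smooth.mul hv.smooth, hv.cpt.mul_left⟩

variable {D : Type*} [DecidableEq D] [Fintype D]

/-- Orthonormal real modes. -/
structure Modes (f : Option D → E3 → ℂ) : Prop where
  nice : ∀ o, Nice (f o)
  real : ∀ o x, conj (f o x) = f o x
  orth : ∀ o o', ov (f o) (f o') = if o = o' then 1 else 0

/-- The coefficients. -/
def cc (ε : ℝ) (b : Bool) (θ : D → Bool) : Option D → ℂ
  | none => 1
  | some B => Complex.I * ((ε * sg b * sg (θ B) : ℝ) : ℂ)

/-- The one-particle functions. -/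
def uu (f : Option D → E3 → ℂ) (ε : ℝ) (θ : D → Bool) (b : Bool) : E3 → ℂ :=
  lc (cc ε b θ) f

theorem uu_nice {f : Option D → E3 → ℂ} (hf : Modes f) (ε : ℝ) (θ : D → Bool) (b : Bool) :
    Nice (uu f ε θ b) := lc_nice _ hf.nice

omit [DecidableEq D] [Fintype D] in
theorem cc_conj_mul_some (ε : ℝ) (b : Bool) (θ' θ : D → Bool) (B : D) :
    conj (cc ε b θ' (some B)) * cc ε b θ (some B) = ((ε ^ 2 * (sg (θ' B) * sg (θ B)) : ℝ) : ℂ) := by
  simp only [cc, map_mul, Complex.conj_I, Complex.conj_ofReal]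
  have h : sg b * sg b = 1 := sg_mul_self b
  have h2 : (-Complex.I * ((ε * sg b * sg (θ' B) : ℝ) : ℂ)) *
      (Complex.I * ((ε * sg b * sg (θ B) : ℝ) : ℂ))
      = (-(Complex.I * Complex.I)) *
        ((ε ^ 2 * (sg b * sg b) * (sg (θ' B) * sg (θ B)) : ℝ) : ℂ) := by
    push_cast
    ring
  rw [h2, h, Complex.I_mul_I]
  push_cast
  ring

theorem ov_uu {f : Option D → E3 → ℂ} (hf : Modes f) (ε : ℝ) (θ' θ : D → Bool) (b : Bool) :
    ov (uu f ε θ' b) (uu f ε θ b) = ((1 + ε ^ 2 * XX θ' θ : ℝ) : ℂ) := by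
  unfold uu
  rw [ov_lc _ _ hf.nice hf.nice]
  have h : ∀ o : Option D, ∑ o', conj (cc ε b θ' o) * cc ε b θ o' * ov (f o) (f o')
      = conj (cc ε b θ' o) * cc ε b θ o := by
    intro o
    simp_rw [hf.orth, mul_ite, mul_one, mul_zero]
    rw [Finset.sum_ite_eq]
    simp
  simp_rw [h]
  rw [Fintype.sum_option]
  simp_rw [cc_conj_mul_some]
  simp only [cc, map_one, mul_one]
  unfold XX
  rw [Finset.mul_sum]
  push_cast
  rfl

omit [Fintype D] in
theorem cc_flip_self (ε : ℝ) (b : Bool) (θ : D → Bool) (B : D) :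
    cc ε b (flip B θ) (some B) = -cc ε b θ (some B) := by
  simp only [cc]
  rw [flip_self, sg_not]
  push_cast
  ring

omit [Fintype D] in
theorem cc_flip_ne (ε : ℝ) (b : Bool) (θ : D → Bool) (B : D) {o : Option D} (h : o ≠ some B) :
    cc ε b (flip B θ) o = cc ε b θ o := by
  cases o with
  | none => rfl
  | some B' =>
    simp only [cc]
    rw [flip_ne (fun h' => h (by rw [h']))]

theorem cc_off_diag (ε : ℝ) (b : Bool) {o o' : Option D} (h : o ≠ o')
    (g : (D → Bool) → (D → Bool) → ℂ) (hg : ∀ B θ' θ, g (flip B θ') (flip B θ) = g θ' θ) :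
    ∑ θ', ∑ θ, g θ' θ * (conj (cc ε b θ' o) * cc ε b θ o') = 0 := by
  rcases o with _ | B
  · rcases o' with _ | B'
    · exact absurd rfl h
    · apply sum_eq_zero_of_flip B'
      intro θ' θ
      rw [hg, cc_flip_self, cc_flip_ne _ _ _ _ h]
      ring
  · apply sum_eq_zero_of_flip B
    intro θ' θ
    rw [hg, cc_flip_self, cc_flip_ne _ _ _ _ (Ne.symm h), map_neg]
    ring

/-- Average kinetic matrix element. -/
theorem kf_uu_sum {f : Option D → E3 → ℂ} (hf : Modes f) {α : ℝ} (hα : 0 ≤ α) (ε : ℝ) (b : Bool)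
    {k0 kG : ℝ} (h0 : kf α (f none) (f none) = k0)
    (hG : ∀ B, kf α (f (some B)) (f (some B)) = kG) (m : ℕ) :
    ∑ θ', ∑ θ, (((1 + ε ^ 2 * XX θ' θ) ^ m : ℝ) : ℂ) * kf α (uu f ε θ' b) (uu f ε θ b)
      = ((∑ θ' : D → Bool, ∑ θ : D → Bool,
        (1 + ε ^ 2 * XX θ' θ) ^ m * (k0 + ε ^ 2 * XX θ' θ * kG) : ℝ) : ℂ) := by
  have h1 : ∀ θ' θ, (((1 + ε ^ 2 * XX θ' θ) ^ m : ℝ) : ℂ) * kf α (uu f ε θ' b) (uu f ε θ b)
      = ∑ o, ∑ o', kf α (f o) (f o') * ((((1 + ε ^ 2 * XX θ' θ) ^ m : ℝ) : ℂ) *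
        (conj (cc ε b θ' o) * cc ε b θ o')) := by
    intro θ' θ
    unfold uu
    rw [kf_lc hα _ _ hf.nice hf.nice, Finset.mul_sum]
    apply Finset.sum_congr rfl
    intro o _
    rw [Finset.mul_sum]
    apply Finset.sum_congr rfl
    intro o' _
    ring
  simp_rw [h1]
  have h2 : ∑ θ' : D → Bool, ∑ θ : D → Bool, ∑ o, ∑ o', kf α (f o) (f o') *
        ((((1 + ε ^ 2 * XX θ' θ) ^ m : ℝ) : ℂ) * (conj (cc ε b θ' o) * cc ε b θ o'))
      = ∑ o, ∑ o', kf α (f o) (f o') * ∑ θ' : D → Bool, ∑ θ : D → Bool,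
        ((((1 + ε ^ 2 * XX θ' θ) ^ m : ℝ) : ℂ) * (conj (cc ε b θ' o) * cc ε b θ o')) := by
    simp_rw [Finset.mul_sum]
    have e1 : ∀ θ' : D → Bool, ∑ θ : D → Bool, ∑ o, ∑ o', kf α (f o) (f o') *
        ((((1 + ε ^ 2 * XX θ' θ) ^ m : ℝ) : ℂ) * (conj (cc ε b θ' o) * cc ε b θ o'))
        = ∑ o, ∑ o', ∑ θ : D → Bool, kf α (f o) (f o') *
        ((((1 + ε ^ 2 * XX θ' θ) ^ m : ℝ) : ℂ) * (conj (cc ε b θ' o) * cc ε b θ o')) := by
      intro θ'
      rw [Finset.sum_comm]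
      apply Finset.sum_congr rfl
      intro o _
      rw [Finset.sum_comm]
    simp_rw [e1]
    rw [Finset.sum_comm]
    apply Finset.sum_congr rfl
    intro o _
    rw [Finset.sum_comm]
  rw [h2]
  have h3 : ∀ o : Option D, ∑ o', kf α (f o) (f o') * ∑ θ' : D → Bool, ∑ θ : D → Bool,
        ((((1 + ε ^ 2 * XX θ' θ) ^ m : ℝ) : ℂ) * (conj (cc ε b θ' o) * cc ε b θ o'))
      = kf α (f o) (f o) * ∑ θ' : D → Bool, ∑ θ : D → Bool,
        ((((1 + ε ^ 2 * XX θ' θ) ^ m : ℝ) : ℂ) * (conj (cc ε b θ' o) * cc ε b θ o)) := by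
    intro o
    rw [Finset.sum_eq_single o]
    · intro o' _ ho'
      rw [cc_off_diag ε b (Ne.symm ho')
        (fun θ' θ => (((1 + ε ^ 2 * XX θ' θ) ^ m : ℝ) : ℂ))
        (fun B θ' θ => by rw [XX_flip2]), mul_zero]
    · intro h
      exact absurd (Finset.mem_univ o) h
  simp_rw [h3]
  rw [Fintype.sum_option, h0]
  simp_rw [hG, cc_conj_mul_some]
  simp only [cc, map_one, mul_one]
  push_cast
  rw [Finset.mul_sum]
  simp_rw [Finset.mul_sum]
  rw [sum3_comm (fun (x : D) (θ' θ : D → Bool) => (kG : ℂ) * ((1 + (ε : ℂ) ^ 2 * ((XX θ' θ : ℝ) : ℂ)) ^ m *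
    ((ε : ℂ) ^ 2 * ((sg (θ' x) : ℂ) * sg (θ x))))), ← Finset.sum_add_distrib]
  apply Finset.sum_congr rfl
  intro θ' _
  rw [← Finset.sum_add_distrib]
  apply Finset.sum_congr rfl
  intro θ _
  rw [← Finset.mul_sum]
  unfold XX
  push_cast
  have : ∑ x : D, (1 + (ε : ℂ) ^ 2 * ∑ B, (sg (θ' B) : ℂ) * sg (θ B)) ^ m *
      ((ε : ℂ) ^ 2 * ((sg (θ' x) : ℂ) * sg (θ x)))
      = (1 + (ε : ℂ) ^ 2 * ∑ B, (sg (θ' B) : ℂ) * sg (θ B)) ^ m *
        ((ε : ℂ) ^ 2 * ∑ B, (sg (θ' B) : ℂ) * sg (θ B)) := by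
    rw [Finset.mul_sum, Finset.mul_sum]
  rw [this]
  ring

end Pool.Agent.T6.H42U
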