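import Pool.Agent.T6.H42U.Modes

/-!
# The averaged potential energy
-/

set_option autoImplicit false
set_option linter.unusedSectionVars false

noncomputable section

namespace Pool.Agent.T6.H42U

open MeasureTheory Pool.Agent.T6.H42
open scoped ContDiff FourierTransform SchwartzMap ComplexConjugate

variable {D : Type*} [DecidableEq D] [Fintype D]

/-- The density matrix element. -/
def rho (f : Option D → E3 → ℂ) (ε : ℝ) (θ' θ : D → Bool) (b : Bool) (y : E3) : ℂ :=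
  conj (uu f ε θ' b y) * uu f ε θ b y

/-- Products of the condensate with an excited mode. -/
def gg (f : Option D → E3 → ℂ) (B : D) (y : E3) : ℂ := f none y * f (some B) y

theorem rho_nice {f : Option D → E3 → ℂ} (hf : Modes f) (ε : ℝ) (θ' θ : D → Bool) (b : Bool) :
    Nice (rho f ε θ' θ b) := (uu_nice hf ε θ' b).conj_mul (uu_nice hf ε θ b)

theorem gg_nice {f : Option D → E3 → ℂ} (hf : Modes f) (B : D) : Nice (gg f B) :=
  (hf.nice none).mul (hf.nice (some B))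

theorem uu_apply (f : Option D → E3 → ℂ) (ε : ℝ) (θ : D → Bool) (b : Bool) (y : E3) :
    uu f ε θ b y = f none y + Complex.I * ε * sg b * ∑ B, (sg (θ B) : ℂ) * f (some B) y := by
  unfold uu lc
  rw [Fintype.sum_option, Finset.mul_sum]
  simp only [cc, one_mul]
  congr 1
  apply Finset.sum_congr rfl
  intro B _
  push_cast
  ring

theorem uu_conj {f : Option D → E3 → ℂ} (hf : Modes f) (ε : ℝ) (θ : D → Bool) (b : Bool) (y : E3) :
    conj (uu f ε θ b y) = f none y - Complex.I * ε * sg b * ∑ B, (sg (θ B) : ℂ) * f (some B) y := by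
  rw [uu_apply, map_add, hf.real, map_mul, map_mul, map_mul, Complex.conj_I, Complex.conj_ofReal,
    Complex.conj_ofReal, map_sum]
  simp_rw [map_mul, Complex.conj_ofReal, hf.real]
  ring

theorem rho_signed {f : Option D → E3 → ℂ} (hf : Modes f) (ε : ℝ) (θ' θ : D → Bool) :
    lc (fun b : Bool => (sg b : ℂ)) (rho f ε θ' θ)
      = lc (fun B : D => 2 * Complex.I * ε * ((sg (θ B) : ℂ) - sg (θ' B))) (gg f) := by
  funext y
  simp only [lc, rho]
  rw [Fintype.sum_bool]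
  rw [uu_conj hf, uu_conj hf, uu_apply, uu_apply]
  have h1 : ((sg true : ℝ) : ℂ) = 1 := by simp [sg]
  have h2 : ((sg false : ℝ) : ℂ) = -1 := by simp [sg]
  rw [h1, h2]
  have h3 : ∑ B : D, 2 * Complex.I * ε * ((sg (θ B) : ℂ) - sg (θ' B)) * gg f B y
      = 2 * Complex.I * ε * f none y * ((∑ B, (sg (θ B) : ℂ) * f (some B) y)
        - ∑ B, (sg (θ' B) : ℂ) * f (some B) y) := by
    rw [← Finset.sum_sub_distrib, Finset.mul_sum]
    apply Finset.sum_congr rfl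
    intro B _
    unfold gg
    ring
  rw [h3]
  ring

theorem cf_signed_sum {f : Option D → E3 → ℂ} (hf : Modes f) (ε : ℝ) (θ' θ : D → Bool) :
    ∑ s, ∑ s', ((sg s : ℂ) * sg s') * cf (rho f ε θ' θ s) (rho f ε θ' θ s')
      = ∑ B, ∑ B', (-4 * (ε : ℂ) ^ 2) * (((sg (θ B) : ℂ) - sg (θ' B)) *
        ((sg (θ B') : ℂ) - sg (θ' B'))) * cf (gg f B) (gg f B') := by
  have h1 : cf (lc (fun b : Bool => (sg b : ℂ)) (rho f ε θ' θ))
      (lc (fun b : Bool => (sg b : ℂ)) (rho f ε θ' θ))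
      = ∑ s, ∑ s', ((sg s : ℂ) * sg s') * cf (rho f ε θ' θ s) (rho f ε θ' θ s') :=
    cf_lc (fun b : Bool => (sg b : ℂ)) (fun b : Bool => (sg b : ℂ))
      (rho_nice hf ε θ' θ) (rho_nice hf ε θ' θ)
  rw [rho_signed hf, cf_lc _ _ (gg_nice hf) (gg_nice hf)] at h1
  rw [← h1]
  apply Finset.sum_congr rfl
  intro B _
  apply Finset.sum_congr rfl
  intro B' _
  have : 2 * Complex.I * ε * ((sg (θ B) : ℂ) - sg (θ' B)) *
      (2 * Complex.I * ε * ((sg (θ B') : ℂ) - sg (θ' B')))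
      = (4 * (Complex.I * Complex.I) * (ε : ℂ) ^ 2) * (((sg (θ B) : ℂ) - sg (θ' B)) *
        ((sg (θ B') : ℂ) - sg (θ' B'))) := by ring
  rw [this, Complex.I_mul_I]
  ring

theorem off_diag2 {B B' : D} (h : B ≠ B') (g : (D → Bool) → (D → Bool) → ℂ)
    (hg : ∀ B θ' θ, g (flip B θ') (flip B θ) = g θ' θ) :
    ∑ θ', ∑ θ, g θ' θ * (((sg (θ B) : ℂ) - sg (θ' B)) * ((sg (θ B') : ℂ) - sg (θ' B'))) = 0 := by
  apply sum_eq_zero_of_flip B
  intro θ' θ
  rw [hg, flip_self, flip_self, flip_ne (Ne.symm h), flip_ne (Ne.symm h), sg_not, sg_not]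
  push_cast
  ring

theorem cf_double_sum {f : Option D → E3 → ℂ} (hf : Modes f) (ε : ℝ) {w : ℝ}
    (hw : ∀ B, cf (gg f B) (gg f B) = w) (m : ℕ) :
    ∑ s, ∑ s', ((sg s : ℂ) * sg s') * ∑ θ' : D → Bool, ∑ θ : D → Bool,
      cf (rho f ε θ' θ s) (rho f ε θ' θ s') * (((1 + ε ^ 2 * XX θ' θ) ^ m : ℝ) : ℂ)
      = ((-8 * ε ^ 2 * w * ∑ θ' : D → Bool, ∑ θ : D → Bool,
        (1 + ε ^ 2 * XX θ' θ) ^ m * (Fintype.card D - XX θ' θ) : ℝ) : ℂ) := by
  have h1 : ∑ s, ∑ s', ((sg s : ℂ) * sg s') * ∑ θ' : D → Bool, ∑ θ : D → Bool,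
      cf (rho f ε θ' θ s) (rho f ε θ' θ s') * (((1 + ε ^ 2 * XX θ' θ) ^ m : ℝ) : ℂ)
      = ∑ θ' : D → Bool, ∑ θ : D → Bool, (((1 + ε ^ 2 * XX θ' θ) ^ m : ℝ) : ℂ) *
        ∑ s, ∑ s', ((sg s : ℂ) * sg s') * cf (rho f ε θ' θ s) (rho f ε θ' θ s') := by
    simp_rw [Finset.mul_sum]
    have e1 : ∀ s : Bool, ∑ s' : Bool, ∑ θ' : D → Bool, ∑ θ : D → Bool,
        ((sg s : ℂ) * sg s') * (cf (rho f ε θ' θ s) (rho f ε θ' θ s') *
          (((1 + ε ^ 2 * XX θ' θ) ^ m : ℝ) : ℂ))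
        = ∑ θ' : D → Bool, ∑ θ : D → Bool, ∑ s' : Bool,
          ((sg s : ℂ) * sg s') * (cf (rho f ε θ' θ s) (rho f ε θ' θ s') *
          (((1 + ε ^ 2 * XX θ' θ) ^ m : ℝ) : ℂ)) := fun s => sum3_comm _
    simp_rw [e1]
    rw [sum3_comm]
    apply Finset.sum_congr rfl
    intro θ' _
    apply Finset.sum_congr rfl
    intro θ _
    apply Finset.sum_congr rfl
    intro s _
    apply Finset.sum_congr rfl
    intro s' _
    ring
  rw [h1]
  simp_rw [cf_signed_sum hf]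
  have h2 : ∑ θ' : D → Bool, ∑ θ : D → Bool, (((1 + ε ^ 2 * XX θ' θ) ^ m : ℝ) : ℂ) *
        ∑ B, ∑ B', (-4 * (ε : ℂ) ^ 2) * (((sg (θ B) : ℂ) - sg (θ' B)) *
        ((sg (θ B') : ℂ) - sg (θ' B'))) * cf (gg f B) (gg f B')
      = ∑ B, ∑ B', ((-4 * (ε : ℂ) ^ 2) * cf (gg f B) (gg f B')) *
        ∑ θ' : D → Bool, ∑ θ : D → Bool, (((1 + ε ^ 2 * XX θ' θ) ^ m : ℝ) : ℂ) *
          (((sg (θ B) : ℂ) - sg (θ' B)) * ((sg (θ B') : ℂ) - sg (θ' B'))) := by
    simp_rw [Finset.mul_sum]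
    have e1 : ∀ θ' : D → Bool, ∑ θ : D → Bool, ∑ B, ∑ B', (((1 + ε ^ 2 * XX θ' θ) ^ m : ℝ) : ℂ) *
        ((-4 * (ε : ℂ) ^ 2) * (((sg (θ B) : ℂ) - sg (θ' B)) *
        ((sg (θ B') : ℂ) - sg (θ' B'))) * cf (gg f B) (gg f B'))
        = ∑ B, ∑ B', ∑ θ : D → Bool, (((1 + ε ^ 2 * XX θ' θ) ^ m : ℝ) : ℂ) *
        ((-4 * (ε : ℂ) ^ 2) * (((sg (θ B) : ℂ) - sg (θ' B)) *
        ((sg (θ B') : ℂ) - sg (θ' B'))) * cf (gg f B) (gg f B')) := fun θ' => sum3_comm _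
    simp_rw [e1]
    rw [sum3_comm]
    apply Finset.sum_congr rfl
    intro B _
    apply Finset.sum_congr rfl
    intro B' _
    apply Finset.sum_congr rfl
    intro θ' _
    apply Finset.sum_congr rfl
    intro θ _
    ring
  rw [h2]
  have h3 : ∀ B : D, ∑ B', ((-4 * (ε : ℂ) ^ 2) * cf (gg f B) (gg f B')) *
        ∑ θ' : D → Bool, ∑ θ : D → Bool, (((1 + ε ^ 2 * XX θ' θ) ^ m : ℝ) : ℂ) *
          (((sg (θ B) : ℂ) - sg (θ' B)) * ((sg (θ B') : ℂ) - sg (θ' B')))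
      = (((-4 * ε ^ 2) * w * ∑ θ' : D → Bool, ∑ θ : D → Bool, (1 + ε ^ 2 * XX θ' θ) ^ m *
          (2 - 2 * (sg (θ' B) * sg (θ B))) : ℝ) : ℂ) := by
    intro B
    rw [Finset.sum_eq_single B]
    · rw [hw]
      push_cast
      congr 1
      apply Finset.sum_congr rfl
      intro θ' _
      apply Finset.sum_congr rfl
      intro θ _
      congr 1
      have e1 : (sg (θ B) : ℂ) * sg (θ B) = 1 := by
        rw [← Complex.ofReal_mul, sg_mul_self, Complex.ofReal_one]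
      have e2 : (sg (θ' B) : ℂ) * sg (θ' B) = 1 := by
        rw [← Complex.ofReal_mul, sg_mul_self, Complex.ofReal_one]
      linear_combination e1 + e2
    · intro B' _ hB'
      rw [off_diag2 (Ne.symm hB') (fun θ' θ => (((1 + ε ^ 2 * XX θ' θ) ^ m : ℝ) : ℂ))
        (fun B θ' θ => by rw [XX_flip2]), mul_zero]
    · intro h
      exact absurd (Finset.mem_univ B) h
  simp_rw [h3]
  rw [← Complex.ofReal_sum]
  congr 1
  rw [← Finset.mul_sum]
  have h4 : ∑ B : D, ∑ θ' : D → Bool, ∑ θ : D → Bool, (1 + ε ^ 2 * XX θ' θ) ^ m *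
          (2 - 2 * (sg (θ' B) * sg (θ B)))
      = ∑ θ' : D → Bool, ∑ θ : D → Bool, (1 + ε ^ 2 * XX θ' θ) ^ m *
        (2 * (Fintype.card D - XX θ' θ)) := by
    rw [Finset.sum_comm]
    apply Finset.sum_congr rfl
    intro θ' _
    rw [Finset.sum_comm]
    apply Finset.sum_congr rfl
    intro θ _
    rw [← Finset.mul_sum]
    congr 1
    rw [Finset.sum_sub_distrib, ← Finset.mul_sum]
    unfold XX
    rw [Finset.sum_const, Finset.card_univ, nsmul_eq_mul]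
    ring
  rw [h4]
  have h5 : ∑ θ' : D → Bool, ∑ θ : D → Bool, (1 + ε ^ 2 * XX θ' θ) ^ m *
        (2 * (Fintype.card D - XX θ' θ))
      = 2 * ∑ θ' : D → Bool, ∑ θ : D → Bool, (1 + ε ^ 2 * XX θ' θ) ^ m *
        (Fintype.card D - XX θ' θ) := by
    simp_rw [Finset.mul_sum]
    apply Finset.sum_congr rfl
    intro θ' _
    apply Finset.sum_congr rfl
    intro θ _
    ring
  rw [h5]
  ring

end Pool.Agent.T6.H42U
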