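import Pool.Agent.T6.H42U.Base
import Pool.Agent.T6.H42U.PotSum

/-!
# Existence of the modes
-/

set_option autoImplicit false
set_option linter.unusedSectionVars false

noncomputable section

namespace Pool.Agent.T6.H42U

open MeasureTheory Pool.Agent.T6.H42
open scoped ContDiff FourierTransform SchwartzMap ComplexConjugate ENNReal

/-- Centres of the cells. -/
def xB {n : ℕ} (ℓ : ℝ) (B : Fin 3 → Fin n) : E3 := WithLp.toLp 2 (fun a => ℓ * ((B a : ℕ) : ℝ))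

theorem xB_norm {n : ℕ} {ℓ : ℝ} (hℓ : 0 < ℓ) (B : Fin 3 → Fin n) :
    ‖xB ℓ B‖ ≤ 3 * (ℓ * (n - 1)) := by
  have hn : 1 ≤ n := by
    have := (B 0).isLt
    omega
  have hn' : (0 : ℝ) ≤ n - 1 := by
    have : (1 : ℝ) ≤ n := by exact_mod_cast hn
    linarith
  have h1 : ∀ a, (ℓ * ((B a : ℕ) : ℝ)) ^ 2 ≤ (ℓ * (n - 1)) ^ 2 := by
    intro a
    apply pow_le_pow_left₀ (by positivity)
    apply mul_le_mul_of_nonneg_left _ hℓ.le
    have : ((B a : ℕ) : ℝ) + 1 ≤ n := by exact_mod_cast (B a).isLt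
    linarith
  have h2 : ‖xB ℓ B‖ ^ 2 ≤ (3 * (ℓ * (n - 1))) ^ 2 := by
    rw [EuclideanSpace.norm_sq_eq]
    simp only [xB, Real.norm_eq_abs, sq_abs]
    calc ∑ a, (ℓ * ((B a : ℕ) : ℝ)) ^ 2 ≤ ∑ _a : Fin 3, (ℓ * (n - 1)) ^ 2 :=
          Finset.sum_le_sum fun a _ => h1 a
      _ = 3 * (ℓ * (n - 1)) ^ 2 := by simp
      _ ≤ (3 * (ℓ * (n - 1))) ^ 2 := by nlinarith [sq_nonneg (ℓ * ((n : ℝ) - 1))]
  exact le_of_sq_le_sq h2 (by positivity)
  where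
  le_of_sq_le_sq {a b : ℝ} (h : a ^ 2 ≤ b ^ 2) (hb : 0 ≤ b) : a ≤ b := by
    exact abs_le_of_sq_le_sq' h hb |>.2

theorem xB_sep {n : ℕ} {ℓ : ℝ} (hℓ : 0 < ℓ) {B B' : Fin 3 → Fin n} (h : B ≠ B') :
    ℓ ≤ ‖xB ℓ B - xB ℓ B'‖ := by
  obtain ⟨a, ha⟩ := Function.ne_iff.mp h
  have h1 : ‖(xB ℓ B - xB ℓ B') a‖ ≤ ‖xB ℓ B - xB ℓ B'‖ := PiLp.norm_apply_le _ a
  refine le_trans ?_ h1
  have h2 : (xB ℓ B - xB ℓ B') a = ℓ * (((B a : ℕ) : ℤ) - ((B' a : ℕ) : ℤ) : ℤ) := by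
    simp only [xB, PiLp.sub_apply]
    push_cast
    ring
  rw [h2, norm_mul, Real.norm_of_nonneg hℓ.le]
  have h3 : (1 : ℝ) ≤ ‖((((B a : ℕ) : ℤ) - ((B' a : ℕ) : ℤ) : ℤ) : ℝ)‖ := by
    rw [Real.norm_eq_abs, ← Int.cast_abs]
    have : (1 : ℤ) ≤ |((B a : ℕ) : ℤ) - ((B' a : ℕ) : ℤ)| := by
      apply Int.one_le_abs
      intro h0
      apply ha
      apply Fin.ext
      omega
    exact_mod_cast this
  nlinarith

theorem dil_supp {Γ : E3 → ℂ} (hΓ : ∀ x, 1 / 2 ≤ ‖x‖ → Γ x = 0) {ℓ : ℝ} (hℓ : 0 < ℓ) {z x : E3}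
    (h : dil ℓ z Γ x ≠ 0) : ‖x - z‖ < ℓ / 2 := by
  by_contra hcon
  rw [not_lt] at hcon
  apply h
  unfold dil
  rw [hΓ, mul_zero]
  rw [norm_smul, Real.norm_of_nonneg (by positivity), ← div_eq_inv_mul, le_div_iff₀ hℓ]
  linarith

theorem modes_exist (α : ℝ) : ∃ (a c kΦ kΓ : ℝ), 0 < a ∧ 0 < c ∧ 0 ≤ kΦ ∧ 0 ≤ kΓ ∧
    ∀ (n : ℕ) (ℓ R : ℝ), 0 < ℓ → 0 < R → n * ℓ ≤ R →
    ∃ f : Option (Fin 3 → Fin n) → E3 → ℂ, Modes f ∧
      kf α (f none) (f none) = ((R ^ (-α) * kΦ : ℝ) : ℂ) ∧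
      (∀ B, kf α (f (some B)) (f (some B)) = ((ℓ ^ (-α) * kΓ : ℝ) : ℂ)) ∧
      ∀ B, cf (gg f B) (gg f B) = ((a ^ 2 * (R ^ 3)⁻¹ * ℓ ^ 2 * c : ℝ) : ℂ) := by
  obtain ⟨Φ, a, ha, hΦn, hΦr, hΦ1, hΦc⟩ := base_phi
  obtain ⟨Γ, c, hc, hΓn, hΓr, hΓ1, hΓ0, hΓs, hΓc⟩ := base_gamma
  refine ⟨a, c, kr α Φ, kr α Γ, ha, hc, kr_nonneg _ _, kr_nonneg _ _, ?_⟩
  intro n ℓ R hℓ hR hn
  -- the modes
  let f : Option (Fin 3 → Fin n) → E3 → ℂ := fun o => o.elim (dil R 0 Φ) (fun B => dil ℓ (xB ℓ B) Γ)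
  have hconst : ∀ (B : Fin 3 → Fin n) (x : E3), dil R 0 Φ x * dil ℓ (xB ℓ B) Γ x
      = (((R ^ (-(3 / 2) : ℝ) * a : ℝ)) : ℂ) * dil ℓ (xB ℓ B) Γ x := by
    intro B x
    by_cases hx : dil ℓ (xB ℓ B) Γ x = 0
    · rw [hx, mul_zero, mul_zero]
    · congr 1
      have h1 := dil_supp hΓs hℓ hx
      have h2 := xB_norm hℓ B
      have h3 : ‖x‖ ≤ 3 * R := by
        have h4 : ‖x‖ ≤ ‖x - xB ℓ B‖ + ‖xB ℓ B‖ := by
          have := norm_add_le (x - xB ℓ B) (xB ℓ B)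
          rwa [sub_add_cancel] at this
        nlinarith
      unfold dil
      rw [hΦc]
      · push_cast
        rfl
      · rw [sub_zero, norm_smul, Real.norm_of_nonneg (by positivity), ← div_eq_inv_mul,
          div_le_iff₀ hR]
        linarith
  have hint0 : ∀ B : Fin 3 → Fin n, ∫ x, dil R 0 Φ x * dil ℓ (xB ℓ B) Γ x = 0 := by
    intro B
    simp_rw [hconst B]
    rw [integral_const_mul, integral_dil_fun hℓ, hΓ0, mul_zero, mul_zero]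
  refine ⟨f, ⟨?_, ?_, ?_⟩, ?_, ?_, ?_⟩
  · intro o
    cases o with
    | none => exact dil_nice hR 0 hΦn
    | some B => exact dil_nice hℓ (xB ℓ B) hΓn
  · intro o x
    cases o with
    | none => exact dil_real R 0 hΦr x
    | some B => exact dil_real ℓ (xB ℓ B) hΓr x
  · intro o o'
    rcases o with _ | B
    · rcases o' with _ | B'
      · rw [if_pos rfl]
        change ov (dil R 0 Φ) (dil R 0 Φ) = 1
        rw [ov_dil hR, hΦ1]
      · rw [if_neg (by simp)]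
        change ov (dil R 0 Φ) (dil ℓ (xB ℓ B') Γ) = 0
        unfold ov
        simp_rw [dil_real R 0 hΦr]
        exact hint0 B'
    · rcases o' with _ | B'
      · rw [if_neg (by simp)]
        change ov (dil ℓ (xB ℓ B) Γ) (dil R 0 Φ) = 0
        unfold ov
        simp_rw [dil_real ℓ (xB ℓ B) hΓr]
        rw [← hint0 B]
        congr 1
        funext x
        ring
      · by_cases hB : B = B'
        · subst hB
          rw [if_pos rfl]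
          change ov (dil ℓ (xB ℓ B) Γ) (dil ℓ (xB ℓ B) Γ) = 1
          rw [ov_dil hℓ, hΓ1]
        · rw [if_neg (by simpa using hB)]
          change ov (dil ℓ (xB ℓ B) Γ) (dil ℓ (xB ℓ B') Γ) = 0
          unfold ov
          simp_rw [dil_real ℓ (xB ℓ B) hΓr]
          have : ∀ x, dil ℓ (xB ℓ B) Γ x * dil ℓ (xB ℓ B') Γ x = 0 := by
            intro x
            by_contra hx
            have h1 := dil_supp hΓs hℓ (left_ne_zero_of_mul hx)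
            have h2 := dil_supp hΓs hℓ (right_ne_zero_of_mul hx)
            have h3 := xB_sep hℓ hB
            have h4 : xB ℓ B - xB ℓ B' = (x - xB ℓ B') - (x - xB ℓ B) := by abel
            rw [h4] at h3
            have h5 := norm_sub_le (x - xB ℓ B') (x - xB ℓ B)
            linarith
          simp_rw [this]
          simp
  · change kf α (dil R 0 Φ) (dil R 0 Φ) = _
    rw [kf_self, kr_dil hR]
  · intro B
    change kf α (dil ℓ (xB ℓ B) Γ) (dil ℓ (xB ℓ B) Γ) = _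
    rw [kf_self, kr_dil hℓ]
  · intro B
    have h1 : gg f B = fun x => (((R ^ (-(3 / 2) : ℝ) * a : ℝ)) : ℂ) * dil ℓ (xB ℓ B) Γ x := by
      funext x
      exact hconst B x
    rw [h1, cf_smul, cf_dil hℓ _ hΓn, hΓc, ← Complex.ofReal_pow, ← Complex.ofReal_mul,
      ← Complex.ofReal_mul]
    congr 1
    have := sq_factor hR
    rw [mul_pow, sq (R ^ (-(3 / 2) : ℝ)), this]
    ring

end Pool.Agent.T6.H42U
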