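import Pool.Agent.T6.H42U.PotSum

/-!
# The trial states
-/

set_option autoImplicit false
set_option linter.unusedSectionVars false

noncomputable section

namespace Pool.Agent.T6.H42U

open MeasureTheory Pool.Agent.T6.H42
open scoped ContDiff FourierTransform SchwartzMap ComplexConjugate ENNReal

variable {D : Type*} [DecidableEq D] [Fintype D]

section state

variable {N : ℕ} {f : Option D → E3 → ℂ} (hf : Modes f) (ε : ℝ) (e : Fin N → Bool)

/-- The trial state. -/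
def SS : 𝓢(Cfg N, ℂ) := psi (u := fun θ i => uu f ε θ (e i)) (fun θ i => uu_nice hf ε θ (e i))

/-- The normalisation. -/
def ZZ (D : Type*) [Fintype D] [DecidableEq D] (ε : ℝ) (m : ℕ) : ℝ :=
  ∑ θ' : D → Bool, ∑ θ : D → Bool, (1 + ε ^ 2 * XX θ' θ) ^ m

/-- The kinetic sum. -/
def KK (D : Type*) [Fintype D] [DecidableEq D] (ε k0 kG : ℝ) (m : ℕ) : ℝ :=
  ∑ θ' : D → Bool, ∑ θ : D → Bool, (1 + ε ^ 2 * XX θ' θ) ^ m * (k0 + ε ^ 2 * XX θ' θ * kG)

/-- The potential sum. -/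
def PP (D : Type*) [Fintype D] [DecidableEq D] (ε : ℝ) (m : ℕ) : ℝ :=
  ∑ θ' : D → Bool, ∑ θ : D → Bool, (1 + ε ^ 2 * XX θ' θ) ^ m * (Fintype.card D - XX θ' θ)

theorem SS_norm : ∫ x, ‖SS hf ε e x‖ ^ 2 = ZZ D ε N := by
  have h := norm_form (u := fun θ i => uu f ε θ (e i)) (fun θ i => uu_nice hf ε θ (e i))
  have h2 : ((∫ x, ‖SS hf ε e x‖ ^ 2 : ℝ) : ℂ) = ((ZZ D ε N : ℝ) : ℂ) := by
    unfold SS
    rw [h]
    simp_rw [ov_uu hf]
    unfold ZZ
    push_cast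
    apply Finset.sum_congr rfl
    intro θ' _
    apply Finset.sum_congr rfl
    intro θ _
    rw [Finset.prod_const, Finset.card_univ, Fintype.card_fin]
  exact_mod_cast h2

theorem SS_kin {α : ℝ} (hα : 0 ≤ α) {k0 kG : ℝ} (h0 : kf α (f none) (f none) = k0)
    (hG : ∀ B, kf α (f (some B)) (f (some B)) = kG) :
    ∫ ξ, (∑ i, wt α (pos ξ i)) * ‖(𝓕 (SS hf ε e) : 𝓢(Cfg N, ℂ)) ξ‖ ^ 2
      = N * KK D ε k0 kG (N - 1) := by
  have h := kin_form hα (u := fun θ i => uu f ε θ (e i)) (fun θ i => uu_nice hf ε θ (e i))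
  have h2 : ((∫ ξ, (∑ i, wt α (pos ξ i)) * ‖(𝓕 (SS hf ε e) : 𝓢(Cfg N, ℂ)) ξ‖ ^ 2 : ℝ) : ℂ)
      = ((N * KK D ε k0 kG (N - 1) : ℝ) : ℂ) := by
    unfold SS
    rw [h]
    simp_rw [ov_uu hf]
    have e1 : ∀ (θ' θ : D → Bool) (i : Fin N),
        kf α (uu f ε θ' (e i)) (uu f ε θ (e i)) *
          ∏ j ∈ Finset.univ.erase i, ((1 + ε ^ 2 * XX θ' θ : ℝ) : ℂ)
        = (((1 + ε ^ 2 * XX θ' θ) ^ (N - 1) : ℝ) : ℂ) *
          kf α (uu f ε θ' (e i)) (uu f ε θ (e i)) := by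
      intro θ' θ i
      rw [Finset.prod_const, Finset.card_erase_of_mem (Finset.mem_univ _), Finset.card_univ,
        Fintype.card_fin]
      push_cast
      ring
    simp_rw [e1]
    rw [← sum3_comm]
    simp_rw [kf_uu_sum hf hα ε _ h0 hG]
    rw [Finset.sum_const, Finset.card_univ, Fintype.card_fin, nsmul_eq_mul]
    unfold KK
    push_cast
    rfl
  exact_mod_cast h2

theorem SS_kin_integrable {α : ℝ} (hα : 0 ≤ α) :
    Integrable (fun ξ => (∑ i, wt α (pos ξ i)) * ‖(𝓕 (SS hf ε e) : 𝓢(Cfg N, ℂ)) ξ‖ ^ 2) :=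
  kin_integrable hα (u := fun θ i => uu f ε θ (e i)) (fun θ i => uu_nice hf ε θ (e i))

theorem SS_density (x : Cfg N) :
    ((‖SS hf ε e x‖ ^ 2 : ℝ) : ℂ)
      = ∑ θ' : D → Bool, ∑ θ : D → Bool, ∏ l, rho f ε θ' θ (e l) (pos x l) := by
  unfold SS
  rw [psi_apply, normSq_sum_prod]
  rfl

include hf in
theorem integral_rho (θ' θ : D → Bool) (b : Bool) :
    ∫ y, rho f ε θ' θ b y = ((1 + ε ^ 2 * XX θ' θ : ℝ) : ℂ) := ov_uu hf ε θ' θ b

/-- One Coulomb pair. -/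
theorem SS_pair {i j : Fin N} (hij : i ≠ j) :
    Integrable (fun x : Cfg N => ‖pos x i - pos x j‖⁻¹ * ‖SS hf ε e x‖ ^ 2) ∧
    ((∫ x : Cfg N, ‖pos x i - pos x j‖⁻¹ * ‖SS hf ε e x‖ ^ 2 : ℝ) : ℂ)
      = ∑ θ' : D → Bool, ∑ θ : D → Bool, cf (rho f ε θ' θ (e i)) (rho f ε θ' θ (e j)) *
        (((1 + ε ^ 2 * XX θ' θ) ^ (N - 2) : ℝ) : ℂ) := by
  have hp : ∀ θ' θ : D → Bool, _ := fun θ' θ =>
    pair_form (fun l => rho f ε θ' θ (e l)) (fun l => rho_nice hf ε θ' θ (e l)) hij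
      ((1 + ε ^ 2 * XX θ' θ : ℝ) : ℂ) (fun l _ _ => integral_rho hf ε θ' θ (e l))
  have hc : (fun x : Cfg N => ((‖pos x i - pos x j‖⁻¹ * ‖SS hf ε e x‖ ^ 2 : ℝ) : ℂ))
      = fun x => ∑ θ' : D → Bool, ∑ θ : D → Bool, ((‖pos x i - pos x j‖⁻¹ : ℝ) : ℂ) *
        ∏ l, rho f ε θ' θ (e l) (pos x l) := by
    funext x
    rw [Complex.ofReal_mul, SS_density, Finset.mul_sum]
    simp_rw [Finset.mul_sum]
  have hint : Integrable (fun x : Cfg N =>
      ((‖pos x i - pos x j‖⁻¹ * ‖SS hf ε e x‖ ^ 2 : ℝ) : ℂ)) := by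
    rw [hc]
    exact integrable_finsetSum _ fun θ' _ => integrable_finsetSum _ fun θ _ => (hp θ' θ).1
  constructor
  · simpa only [RCLike.re_to_complex, Complex.ofReal_re] using hint.re
  · rw [← integral_complex_ofReal, hc,
      integral_finsetSum _ fun θ' _ => integrable_finsetSum _ fun θ _ => (hp θ' θ).1]
    apply Finset.sum_congr rfl
    intro θ' _
    rw [integral_finsetSum _ fun θ _ => (hp θ' θ).1]
    apply Finset.sum_congr rfl
    intro θ _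
    rw [(hp θ' θ).2]
    push_cast
    rfl

end state

/-- One Coulomb pair, averaged over all charges. -/
theorem pair_avg {N : ℕ} {f : Option D → E3 → ℂ} (hf : Modes f) (ε : ℝ) {w : ℝ}
    (hw : ∀ B, cf (gg f B) (gg f B) = w) {i j : Fin N} (hij : i ≠ j) :
    ∑ e : Fin N → Bool, sg (e i) * sg (e j) *
      ∫ x : Cfg N, ‖pos x i - pos x j‖⁻¹ * ‖SS hf ε e x‖ ^ 2
      = 2 ^ N * (-2 * ε ^ 2 * w * PP D ε (N - 2)) := by
  have h1 : ((∑ e : Fin N → Bool, sg (e i) * sg (e j) *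
      ∫ x : Cfg N, ‖pos x i - pos x j‖⁻¹ * ‖SS hf ε e x‖ ^ 2 : ℝ) : ℂ)
      = ∑ e : Fin N → Bool, ((sg (e i) : ℂ) * sg (e j)) *
        ∑ θ' : D → Bool, ∑ θ : D → Bool, cf (rho f ε θ' θ (e i)) (rho f ε θ' θ (e j)) *
        (((1 + ε ^ 2 * XX θ' θ) ^ (N - 2) : ℝ) : ℂ) := by
    rw [Complex.ofReal_sum]
    apply Finset.sum_congr rfl
    intro e _
    rw [Complex.ofReal_mul, (SS_pair hf ε e hij).2]
    push_cast
    rfl
  have h2 := sum_two (A := ℂ) hij (fun s s' => ((sg s : ℂ) * sg s') *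
        ∑ θ' : D → Bool, ∑ θ : D → Bool, cf (rho f ε θ' θ s) (rho f ε θ' θ s') *
        (((1 + ε ^ 2 * XX θ' θ) ^ (N - 2) : ℝ) : ℂ))
  rw [cf_double_sum hf ε hw (N - 2), ← h1] at h2
  simp only [smul_eq_mul, Fintype.card_fin] at h2
  have h3 : ((4 * ∑ e : Fin N → Bool, sg (e i) * sg (e j) *
      ∫ x : Cfg N, ‖pos x i - pos x j‖⁻¹ * ‖SS hf ε e x‖ ^ 2 : ℝ) : ℂ)
      = ((2 ^ N * (-8 * ε ^ 2 * w * PP D ε (N - 2)) : ℝ) : ℂ) := by
    rw [Complex.ofReal_mul]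
    push_cast at h2 ⊢
    rw [h2]
    unfold PP
    push_cast
    rfl
  have h4 := Complex.ofReal_injective h3
  linarith

theorem count_pairs (N : ℕ) (c : ℝ) :
    2 * ∑ i : Fin N, ∑ j : Fin N, (if i < j then c else 0) = N * (N - 1) * c := by
  have h1 : ∑ i : Fin N, ∑ j : Fin N, (if i < j then c else 0)
      = ∑ i : Fin N, ∑ j : Fin N, (if j < i then c else 0) := by
    rw [Finset.sum_comm]
  have h2 : 2 * ∑ i : Fin N, ∑ j : Fin N, (if i < j then c else 0)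
      = ∑ i : Fin N, ∑ j : Fin N, (c - if i = j then c else 0) := by
    rw [two_mul]
    nth_rewrite 2 [h1]
    rw [← Finset.sum_add_distrib]
    apply Finset.sum_congr rfl
    intro i _
    rw [← Finset.sum_add_distrib]
    apply Finset.sum_congr rfl
    intro j _
    rcases lt_trichotomy i j with h | h | h
    · simp [h, h.ne, not_lt.mpr h.le]
    · simp [h]
    · simp [h, h.ne', not_lt.mpr h.le]
  rw [h2]
  simp only [Finset.sum_sub_distrib, Finset.sum_const, Finset.card_univ, Fintype.card_fin,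
    Finset.sum_ite_eq, Finset.mem_univ, if_true, nsmul_eq_mul]
  ring

/-- The total Coulomb energy of the trial state. -/
def PE {N : ℕ} {f : Option D → E3 → ℂ} (hf : Modes f) (ε : ℝ) (e : Fin N → Bool) : ℝ :=
  ∑ i : Fin N, ∑ j : Fin N, if i < j then sg (e i) * sg (e j) *
      ∫ x : Cfg N, ‖pos x i - pos x j‖⁻¹ * ‖SS hf ε e x‖ ^ 2 else 0

theorem PE_avg {N : ℕ} {f : Option D → E3 → ℂ} (hf : Modes f) (ε : ℝ) {w : ℝ}
    (hw : ∀ B, cf (gg f B) (gg f B) = w) :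
    ∑ e : Fin N → Bool, PE hf ε e = 2 ^ N * (-(N * (N - 1)) * ε ^ 2 * w * PP D ε (N - 2)) := by
  unfold PE
  rw [Finset.sum_comm]
  have h1 : ∀ i : Fin N, ∑ e : Fin N → Bool, ∑ j : Fin N, (if i < j then sg (e i) * sg (e j) *
      ∫ x : Cfg N, ‖pos x i - pos x j‖⁻¹ * ‖SS hf ε e x‖ ^ 2 else 0)
      = ∑ j : Fin N, if i < j then 2 ^ N * (-2 * ε ^ 2 * w * PP D ε (N - 2)) else 0 := by
    intro i
    rw [Finset.sum_comm]
    apply Finset.sum_congr rfl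
    intro j _
    split_ifs with hij
    · exact pair_avg hf ε hw hij.ne
    · simp
  simp_rw [h1]
  have h2 := count_pairs N (2 ^ N * (-2 * ε ^ 2 * w * PP D ε (N - 2)))
  linear_combination (1 / 2) * h2

theorem exists_charge {N : ℕ} {f : Option D → E3 → ℂ} (hf : Modes f) (ε : ℝ) {w : ℝ}
    (hw : ∀ B, cf (gg f B) (gg f B) = w) :
    ∃ e : Fin N → Bool, PE hf ε e ≤ -(N * (N - 1)) * ε ^ 2 * w * PP D ε (N - 2) := by
  by_contra hcon
  push Not at hcon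
  have h1 := PE_avg (N := N) hf ε hw
  have h2 : ∑ e : Fin N → Bool, (-(N * (N - 1)) * ε ^ 2 * w * PP D ε (N - 2))
      < ∑ e : Fin N → Bool, PE hf ε e :=
    Finset.sum_lt_sum_of_nonempty Finset.univ_nonempty (fun e _ => hcon e)
  rw [h1, Finset.sum_const, Finset.card_univ, Fintype.card_fun, Fintype.card_bool,
    Fintype.card_fin, nsmul_eq_mul] at h2
  push_cast at h2
  exact lt_irrefl _ h2

end Pool.Agent.T6.H42U
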