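import Pool.Agent.T6.H42U.Forms

/-!
# Coulomb matrix elements of products
-/

set_option autoImplicit false

noncomputable section

namespace Pool.Agent.T6.H42U

open MeasureTheory Pool.Agent.T6.H42
open scoped ContDiff FourierTransform SchwartzMap ComplexConjugate

/-- Truncated Coulomb kernel. -/
def hC (x : E3) : ℝ := (Metric.ball (0 : E3) 1).indicator (fun x => ‖x‖⁻¹) x

theorem hC_nonneg (x : E3) : 0 ≤ hC x := by
  unfold hC
  apply Set.indicator_nonneg
  intro x _
  positivity

theorem hC_measurable : Measurable hC := by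
  unfold hC
  exact Measurable.indicator (by fun_prop) measurableSet_ball

theorem hC_integrable : Integrable hC := by
  unfold hC
  have hV : Module.finrank ℝ E3 = 3 := by simp
  have : Nontrivial E3 := Module.nontrivial_of_finrank_pos (R := ℝ) (by omega)
  rw [integrable_indicator_iff measurableSet_ball]
  rw [integrableOn_fun_norm_addHaar (volume : Measure E3) (f := fun r : ℝ => r⁻¹) (r := 1)]
  rw [hV]
  have h : IntegrableOn (fun y : ℝ => y) (Set.Ioo 0 1) := by
    have : IntegrableOn (fun y : ℝ => y) (Set.Icc 0 1) :=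
      Continuous.integrableOn_Icc continuous_id
    exact this.mono_set Set.Ioo_subset_Icc_self
  refine (integrableOn_congr_fun ?_ measurableSet_Ioo).mpr h
  intro y hy
  have : y ≠ 0 := ne_of_gt hy.1
  simp only [smul_eq_mul]
  field_simp

theorem inv_norm_le (x : E3) : ‖x‖⁻¹ ≤ hC x + 1 := by
  unfold hC
  by_cases h : x ∈ Metric.ball (0 : E3) 1
  · rw [Set.indicator_of_mem h]
    linarith
  · rw [Set.indicator_of_notMem h]
    have : 1 ≤ ‖x‖ := by simpa using h
    have := inv_le_one_of_one_le₀ this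
    linarith

section product

variable {W : Type*} [MeasurableSpace W] {ν : Measure W} [SFinite ν]

theorem hC_mul_integrable {a : W → E3} (ha : Measurable a) {G : W → ℝ} (hG : Integrable G ν) :
    Integrable (fun p : E3 × W => hC (p.1 - a p.2) * G p.2) ((volume : Measure E3).prod ν) := by
  rw [integrable_prod_iff']
  · constructor
    · refine Filter.Eventually.of_forall fun y => ?_
      change Integrable (fun x => hC (x - a y) * G y)
      apply Integrable.mul_const
      exact hC_integrable.comp_sub_right (a y)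
    · have : (fun y : W => ∫ x : E3, ‖hC (x - a y) * G y‖) =
          fun y => (∫ x : E3, hC x) * ‖G y‖ := by
        funext y
        have h2 : ∀ x : E3, ‖hC (x - a y) * G y‖ = hC (x - a y) * ‖G y‖ := by
          intro x
          rw [norm_mul, Real.norm_of_nonneg (hC_nonneg _)]
        simp_rw [h2]
        rw [integral_mul_const, integral_sub_right_eq_self (fun x => hC x) (a y)]
      rw [this]
      exact hG.norm.const_mul _
  · apply AEStronglyMeasurable.mul
    · apply Measurable.aestronglyMeasurable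
      exact hC_measurable.comp (by fun_prop)
    · exact hG.1.comp_snd

/-- Bounded integrable functions. -/
theorem coulomb_prod_integrable {a : W → E3} (ha : Measurable a) {F : E3 → ℂ} {G : W → ℂ}
    (hF : Integrable F) {C : ℝ} (hFC : ∀ x, ‖F x‖ ≤ C) (hG : Integrable G ν) :
    Integrable (fun p : E3 × W => ((‖p.1 - a p.2‖⁻¹ : ℝ) : ℂ) * (F p.1 * G p.2))
      ((volume : Measure E3).prod ν) := by
  have h1 : Integrable (fun p : E3 × W => hC (p.1 - a p.2) * (C * ‖G p.2‖))
      ((volume : Measure E3).prod ν) := hC_mul_integrable ha (hG.norm.const_mul C)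
  have h2 : Integrable (fun p : E3 × W => F p.1 * G p.2) ((volume : Measure E3).prod ν) :=
    hF.mul_prod hG
  refine Integrable.mono' (h1.add h2.norm) ?_ ?_
  · apply AEStronglyMeasurable.mul
    · apply Measurable.aestronglyMeasurable
      apply Complex.measurable_ofReal.comp
      exact (measurable_norm.comp (by fun_prop : Measurable fun p : E3 × W => p.1 - a p.2)).inv
    · exact h2.1
  · refine Filter.Eventually.of_forall fun p => ?_
    rw [norm_mul, Complex.norm_real, Real.norm_of_nonneg (by positivity)]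
    have e1 := inv_norm_le (p.1 - a p.2)
    have e2 := hFC p.1
    have e3 := hC_nonneg (p.1 - a p.2)
    have e4 : ‖F p.1 * G p.2‖ ≤ C * ‖G p.2‖ := by
      rw [norm_mul]
      exact mul_le_mul_of_nonneg_right e2 (norm_nonneg _)
    calc ‖p.1 - a p.2‖⁻¹ * ‖F p.1 * G p.2‖
        ≤ (hC (p.1 - a p.2) + 1) * ‖F p.1 * G p.2‖ := by gcongr
      _ = hC (p.1 - a p.2) * ‖F p.1 * G p.2‖ + ‖F p.1 * G p.2‖ := by ring
      _ ≤ hC (p.1 - a p.2) * (C * ‖G p.2‖) + ‖F p.1 * G p.2‖ := by gcongr
      _ = _ := by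
        simp only [Pi.add_apply]

end product

theorem Nice.bdd {u : E3 → ℂ} (hu : Nice u) : ∃ C, ∀ x, ‖u x‖ ≤ C := by
  obtain ⟨D, _, hD⟩ := hu.toS.decay 0 0
  refine ⟨D, fun y => ?_⟩
  have := hD y
  rw [pow_zero, one_mul, norm_iteratedFDeriv_zero, Nice.toS_apply] at this
  exact this

/-- Coulomb form. -/
def cf (F G : E3 → ℂ) : ℂ := ∫ p : E3 × E3, ((‖p.1 - p.2‖⁻¹ : ℝ) : ℂ) * (F p.1 * G p.2)

theorem cf_integrable {F G : E3 → ℂ} (hF : Nice F) (hG : Nice G) :
    Integrable (fun p : E3 × E3 => ((‖p.1 - p.2‖⁻¹ : ℝ) : ℂ) * (F p.1 * G p.2)) := by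
  obtain ⟨C, hC⟩ := hF.bdd
  exact coulomb_prod_integrable (a := fun x => x) measurable_id hF.integrable hC hG.integrable

theorem integral_weight_pi {n : ℕ} (G : Fin n → E3 → ℂ) (w : E3 → ℂ) (i : Fin n) :
    ∫ x : Fin n → E3, w (x i) * ∏ j, G j (x j)
      = (∫ y, w y * G i y) * ∏ j ∈ Finset.univ.erase i, ∫ y, G j y := by
  simp_rw [prod_update G w i]
  rw [integral_fintype_prod_volume_eq_prod, ← Finset.mul_prod_erase Finset.univ _ (Finset.mem_univ i)]
  rw [Function.update_self]
  congr 1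
  apply Finset.prod_congr rfl
  intro j hj
  rw [Function.update_of_ne (Finset.ne_of_mem_erase hj)]

/-- Integrand in split coordinates. -/
def splitF {n : ℕ} (F : Fin (n + 1) → E3 → ℂ) (i : Fin (n + 1)) (j : Fin n)
    (p : E3 × (Fin n → E3)) : ℂ :=
  ((‖p.1 - p.2 j‖⁻¹ : ℝ) : ℂ) * (F i p.1 * ∏ l, F (i.succAbove l) (p.2 l))

theorem splitF_comp {n : ℕ} (F : Fin (n + 1) → E3 → ℂ) (i : Fin (n + 1)) (j : Fin n)
    (x : Fin (n + 1) → E3) :
    splitF F i j (MeasurableEquiv.piFinSuccAbove (fun _ => E3) i x)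
      = ((‖x i - x (i.succAbove j)‖⁻¹ : ℝ) : ℂ) * ∏ l, F l (x l) := by
  rw [Fin.prod_univ_succAbove _ i]
  rfl

theorem splitF_integrable {n : ℕ} (F : Fin (n + 1) → E3 → ℂ) (hF : ∀ i, Nice (F i))
    (i : Fin (n + 1)) (j : Fin n) :
    Integrable (splitF F i j) ((volume : Measure E3).prod (volume : Measure (Fin n → E3))) := by
  obtain ⟨C, hC⟩ := (hF i).bdd
  have h1 : Integrable (fun y : Fin n → E3 => ∏ l, F (i.succAbove l) (y l))
      (volume : Measure (Fin n → E3)) :=
    Integrable.fintype_prod (fun l => (hF (i.succAbove l)).integrable)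
  have ha : Measurable (fun y : Fin n → E3 => y j) := measurable_pi_apply j
  have h2 := coulomb_prod_integrable ha (hF i).integrable hC h1
  unfold splitF
  exact h2

theorem splitF_inner {n : ℕ} (F : Fin (n + 1) → E3 → ℂ) (i : Fin (n + 1)) (j : Fin n) (q : ℂ)
    (hq : ∀ l, l ≠ j → ∫ y, F (i.succAbove l) y = q) (x : E3) :
    ∫ y : Fin n → E3, splitF F i j (x, y)
      = (∫ z : E3, ((‖x - z‖⁻¹ : ℝ) : ℂ) * (F i x * F (i.succAbove j) z)) * q ^ (n - 1) := by
  have h1 : ∀ y : Fin n → E3, splitF F i j (x, y) = F i x * (((‖x - y j‖⁻¹ : ℝ) : ℂ) *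
      ∏ l, F (i.succAbove l) (y l)) := by
    intro y
    simp only [splitF]
    ring
  simp_rw [h1]
  rw [integral_const_mul, integral_weight_pi (fun l => F (i.succAbove l))
    (fun y => ((‖x - y‖⁻¹ : ℝ) : ℂ)) j]
  have h2 : ∏ l ∈ Finset.univ.erase j, ∫ y, F (i.succAbove l) y = q ^ (n - 1) := by
    rw [Finset.prod_congr rfl (fun l hl => hq l (Finset.ne_of_mem_erase hl)), Finset.prod_const,
      Finset.card_erase_of_mem (Finset.mem_univ _), Finset.card_univ, Fintype.card_fin]
  rw [h2, ← mul_assoc]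
  congr 1
  rw [← integral_const_mul]
  congr 1
  funext y
  ring

theorem pair_succ {n : ℕ} (F : Fin (n + 1) → E3 → ℂ) (hF : ∀ i, Nice (F i)) (i : Fin (n + 1))
    (j : Fin n) (q : ℂ) (hq : ∀ l, l ≠ j → ∫ y, F (i.succAbove l) y = q) :
    Integrable (fun x : Fin (n + 1) → E3 => ((‖x i - x (i.succAbove j)‖⁻¹ : ℝ) : ℂ) *
      ∏ l, F l (x l)) ∧
    ∫ x : Fin (n + 1) → E3, ((‖x i - x (i.succAbove j)‖⁻¹ : ℝ) : ℂ) * ∏ l, F l (x l)
      = cf (F i) (F (i.succAbove j)) * q ^ (n - 1) := by
  have hmp := volume_preserving_piFinSuccAbove (fun _ : Fin (n + 1) => E3) i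
  have hint := splitF_integrable F hF i j
  simp_rw [← splitF_comp F i j]
  constructor
  · exact (hmp.integrable_comp_emb (MeasurableEquiv.measurableEmbedding _)).mpr hint
  · rw [hmp.integral_comp' (splitF F i j), Measure.volume_eq_prod, integral_prod _ hint]
    simp_rw [splitF_inner F i j q hq]
    unfold cf
    rw [Measure.volume_eq_prod, integral_prod _ (cf_integrable (hF i) (hF _)), ← integral_mul_const]

theorem pair_form {N : ℕ} (F : Fin N → E3 → ℂ) (hF : ∀ i, Nice (F i)) {i j : Fin N} (hij : i ≠ j)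
    (q : ℂ) (hq : ∀ l, l ≠ i → l ≠ j → ∫ y, F l y = q) :
    Integrable (fun x : Cfg N => ((‖pos x i - pos x j‖⁻¹ : ℝ) : ℂ) * ∏ l, F l (pos x l)) ∧
    ∫ x : Cfg N, ((‖pos x i - pos x j‖⁻¹ : ℝ) : ℂ) * ∏ l, F l (pos x l)
      = cf (F i) (F j) * q ^ (N - 2) := by
  rw [integral_posE (fun x : Fin N → E3 => ((‖x i - x j‖⁻¹ : ℝ) : ℂ) * ∏ l, F l (x l)),
    integrable_posE (fun x : Fin N → E3 => ((‖x i - x j‖⁻¹ : ℝ) : ℂ) * ∏ l, F l (x l))]
  obtain _ | n := N
  · exact i.elim0
  obtain ⟨j', hj'⟩ := Fin.exists_succAbove_eq (Ne.symm hij)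
  subst hj'
  have := pair_succ F hF i j' q (fun l hl => hq _ (Fin.succAbove_ne i l)
    (fun h => hl (Fin.succAbove_right_injective h)))
  simpa using this

end Pool.Agent.T6.H42U
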