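import Mathlib
import Pool.Agent.T6.H42.Defs

/-!
# Configurations as tuples of positions
-/

set_option autoImplicit false

noncomputable section

namespace Pool.Agent.T6.H42U

open MeasureTheory Pool.Agent.T6.H42

/-- The one-particle space. -/
abbrev E3 : Type := EuclideanSpace ℝ (Fin 3)

theorem uncurry_mp (N : ℕ) :
    MeasurePreserving (MeasurableEquiv.curry (Fin N) (Fin 3) ℝ).symm := by
  refine ⟨MeasurableEquiv.measurable _, ?_⟩
  rw [volume_pi]
  symm
  apply Measure.pi_eq
  intro s hs
  rw [Measure.map_apply (MeasurableEquiv.measurable _) (MeasurableSet.univ_pi hs)]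
  have : (MeasurableEquiv.curry (Fin N) (Fin 3) ℝ).symm ⁻¹' (Set.univ.pi s)
      = Set.univ.pi (fun i => Set.univ.pi (fun a => s (i, a))) := by
    ext y
    simp only [Set.mem_preimage, Set.mem_univ_pi]
    constructor
    · intro h i a
      exact h (i, a)
    · intro h k
      exact h k.1 k.2
  rw [this, Measure.pi_pi]
  simp only [volume_pi_pi]
  rw [Fintype.prod_prod_type]

/-- The measurable equivalence between configurations and tuples of positions. -/
def posE (N : ℕ) : Cfg N ≃ᵐ (Fin N → E3) :=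
  ((MeasurableEquiv.toLp 2 (Fin N × Fin 3 → ℝ)).symm.trans
    (MeasurableEquiv.curry (Fin N) (Fin 3) ℝ)).trans
    (MeasurableEquiv.piCongrRight fun _ => MeasurableEquiv.toLp 2 (Fin 3 → ℝ))

theorem posE_apply {N : ℕ} (x : Cfg N) (i : Fin N) : posE N x i = pos x i := rfl

theorem posE_mp (N : ℕ) : MeasurePreserving (posE N) := by
  have h1 : MeasurePreserving (MeasurableEquiv.toLp 2 (Fin N × Fin 3 → ℝ)).symm :=
    EuclideanSpace.volume_preserving_symm_measurableEquiv_toLp _
  have h2 : MeasurePreserving (MeasurableEquiv.curry (Fin N) (Fin 3) ℝ) := (uncurry_mp N).symm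
  have h3 : MeasurePreserving (MeasurableEquiv.piCongrRight fun _ : Fin N =>
      MeasurableEquiv.toLp 2 (Fin 3 → ℝ)) := by
    have := volume_preserving_pi (ι := Fin N) (α' := fun _ => Fin 3 → ℝ) (β' := fun _ => E3)
      (f := fun _ => (MeasurableEquiv.toLp 2 (Fin 3 → ℝ)))
      (fun _ => PiLp.volume_preserving_toLp (Fin 3))
    exact this
  exact h3.comp (h2.comp h1)

theorem integral_posE {N : ℕ} {F : Type*} [NormedAddCommGroup F] [NormedSpace ℝ F]
    (g : (Fin N → E3) → F) : ∫ x : Cfg N, g (fun i => pos x i) = ∫ y, g y :=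
  (posE_mp N).integral_comp' g

theorem integrable_posE {N : ℕ} {F : Type*} [NormedAddCommGroup F]
    (g : (Fin N → E3) → F) :
    Integrable (fun x : Cfg N => g (fun i => pos x i)) ↔ Integrable g :=
  (posE_mp N).integrable_comp_emb (posE N).measurableEmbedding

/-- Product of one-particle functions: integral. -/
theorem integral_prod_pos {N : ℕ} (F : Fin N → E3 → ℂ) :
    ∫ x : Cfg N, ∏ i, F i (pos x i) = ∏ i, ∫ y, F i y := by
  rw [integral_posE (fun y => ∏ i, F i (y i))]
  exact integral_fintype_prod_volume_eq_prod F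

theorem integrable_prod_pos {N : ℕ} (F : Fin N → E3 → ℂ) (hF : ∀ i, Integrable (F i)) :
    Integrable (fun x : Cfg N => ∏ i, F i (pos x i)) := by
  rw [integrable_posE (fun y => ∏ i, F i (y i))]
  exact Integrable.fintype_prod hF

theorem inner_eq_sum_pos {N : ℕ} (x y : Cfg N) :
    inner ℝ x y = ∑ i, inner ℝ (pos x i) (pos y i) := by
  simp only [PiLp.inner_apply, pos]
  rw [Fintype.sum_prod_type]

theorem norm_sq_eq_sum_pos {N : ℕ} (x : Cfg N) : ‖x‖ ^ 2 = ∑ i, ‖pos x i‖ ^ 2 := by
  rw [← real_inner_self_eq_norm_sq, inner_eq_sum_pos]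
  simp

/-- The position map as a continuous linear map. -/
def posL (N : ℕ) (i : Fin N) : Cfg N →L[ℝ] E3 :=
  LinearMap.toContinuousLinearMap
    { toFun := fun x => pos x i
      map_add' := by intro x y; ext a; simp [pos]
      map_smul' := by intro c x; ext a; simp [pos] }

theorem posL_apply {N : ℕ} (i : Fin N) (x : Cfg N) : posL N i x = pos x i := rfl

end Pool.Agent.T6.H42U
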