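import Pool.Agent.T6.H42U.Pos

/-!
# Tensor products of one-particle functions
-/

set_option autoImplicit false

noncomputable section

namespace Pool.Agent.T6.H42U

open MeasureTheory Pool.Agent.T6.H42
open scoped ContDiff FourierTransform SchwartzMap ComplexConjugate

/-- Smooth functions of compact support. -/
structure Nice (u : E3 → ℂ) : Prop where
  smooth : ContDiff ℝ ∞ u
  cpt : HasCompactSupport u

theorem Nice.add {u v : E3 → ℂ} (hu : Nice u) (hv : Nice v) : Nice (fun x => u x + v x) :=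
  ⟨hu.smooth.add hv.smooth, hu.cpt.add hv.cpt⟩

theorem Nice.smul {u : E3 → ℂ} (hu : Nice u) (c : ℂ) : Nice (fun x => c * u x) :=
  ⟨contDiff_const.mul hu.smooth, hu.cpt.mul_left⟩

theorem Nice.zero : Nice (fun _ => 0) :=
  ⟨contDiff_const, HasCompactSupport.zero⟩

theorem Nice.sum {ι : Type*} (s : Finset ι) {u : ι → E3 → ℂ} (hu : ∀ i ∈ s, Nice (u i)) :
    Nice (fun x => ∑ i ∈ s, u i x) := by
  classical
  induction s using Finset.induction_on with
  | empty => simpa using Nice.zero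
  | insert a s ha ih =>
    have h1 := hu a (Finset.mem_insert_self _ _)
    have h2 := ih (fun i hi => hu i (Finset.mem_insert_of_mem hi))
    have := h1.add h2
    refine ⟨?_, ?_⟩
    · convert this.smooth using 2 with x
      rw [Finset.sum_insert ha]
    · convert this.cpt using 2 with x
      rw [Finset.sum_insert ha]

/-- A nice function as a Schwartz function. -/
def Nice.toS {u : E3 → ℂ} (hu : Nice u) : 𝓢(E3, ℂ) := hu.cpt.toSchwartzMap hu.smooth

theorem Nice.toS_apply {u : E3 → ℂ} (hu : Nice u) (x : E3) : hu.toS x = u x := rfl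

theorem Nice.coe_toS {u : E3 → ℂ} (hu : Nice u) : (hu.toS : E3 → ℂ) = u := rfl

theorem Nice.continuous {u : E3 → ℂ} (hu : Nice u) : Continuous u := hu.smooth.continuous

theorem Nice.integrable {u : E3 → ℂ} (hu : Nice u) : Integrable u :=
  hu.continuous.integrable_of_hasCompactSupport hu.cpt

theorem Nice.exists_bound {u : E3 → ℂ} (hu : Nice u) : ∃ ρ : ℝ, 0 ≤ ρ ∧ ∀ x, ρ < ‖x‖ → u x = 0 := by
  obtain ⟨r, hr⟩ := hu.cpt.isCompact.isBounded.subset_closedBall (0 : E3)
  refine ⟨max r 0, le_max_right _ _, fun x hx => ?_⟩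
  by_contra h
  have h1 : x ∈ tsupport u := subset_tsupport _ h
  have h2 := hr h1
  rw [Metric.mem_closedBall, dist_zero_right] at h2
  exact absurd (lt_of_le_of_lt (le_max_left r 0) hx) (not_lt.mpr h2)

/-- The tensor product of one-particle functions. -/
def tens {N : ℕ} (u : Fin N → E3 → ℂ) (x : Cfg N) : ℂ := ∏ i, u i (pos x i)

theorem tens_smooth {N : ℕ} {u : Fin N → E3 → ℂ} (hu : ∀ i, Nice (u i)) :
    ContDiff ℝ ∞ (tens u) := by
  unfold tens
  apply contDiff_prod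
  intro i _
  exact (hu i).smooth.comp (posL N i).contDiff

theorem tens_cpt {N : ℕ} {u : Fin N → E3 → ℂ} (hu : ∀ i, Nice (u i)) :
    HasCompactSupport (tens u) := by
  choose ρ hρ0 hρ using fun i => (hu i).exists_bound
  refine HasCompactSupport.intro (isCompact_closedBall (0 : Cfg N) (Real.sqrt (∑ i, ρ i ^ 2))) ?_
  intro x hx
  rw [Metric.mem_closedBall, dist_zero_right, not_le] at hx
  by_contra h
  have h1 : ∀ i, ‖pos x i‖ ≤ ρ i := by
    intro i
    by_contra hi
    rw [not_le] at hi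
    exact h (Finset.prod_eq_zero (Finset.mem_univ i) (hρ i _ hi))
  have h2 : ‖x‖ ^ 2 ≤ ∑ i, ρ i ^ 2 := by
    rw [norm_sq_eq_sum_pos]
    exact Finset.sum_le_sum fun i _ => pow_le_pow_left₀ (norm_nonneg _) (h1 i) 2
  have h3 : ‖x‖ ≤ Real.sqrt (∑ i, ρ i ^ 2) := Real.le_sqrt_of_sq_le h2
  exact absurd hx (not_lt.mpr h3)

/-- The tensor product as a Schwartz function. -/
def tensS {N : ℕ} {u : Fin N → E3 → ℂ} (hu : ∀ i, Nice (u i)) : 𝓢(Cfg N, ℂ) :=
  (tens_cpt hu).toSchwartzMap (tens_smooth hu)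

theorem tensS_apply {N : ℕ} {u : Fin N → E3 → ℂ} (hu : ∀ i, Nice (u i)) (x : Cfg N) :
    tensS hu x = ∏ i, u i (pos x i) := rfl

theorem fourier_tens {N : ℕ} (u : Fin N → E3 → ℂ) (ξ : Cfg N) :
    𝓕 (tens u) ξ = ∏ i, 𝓕 (u i) (pos ξ i) := by
  rw [Real.fourier_eq']
  simp only [Real.fourier_eq']
  rw [← integral_prod_pos (fun i v => Complex.exp ((↑(-2 * Real.pi * inner ℝ v (pos ξ i)) * Complex.I)) • u i v)]
  congr 1
  ext x
  simp only [smul_eq_mul, tens]
  rw [Finset.prod_mul_distrib, ← Complex.exp_sum, inner_eq_sum_pos]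
  congr 2
  push_cast
  rw [Finset.mul_sum, Finset.sum_mul]

theorem fourier_tensS {N : ℕ} {u : Fin N → E3 → ℂ} (hu : ∀ i, Nice (u i)) (ξ : Cfg N) :
    (𝓕 (tensS hu) : 𝓢(Cfg N, ℂ)) ξ = ∏ i, (𝓕 (hu i).toS : 𝓢(E3, ℂ)) (pos ξ i) := by
  have h := fourier_tens u ξ
  rw [SchwartzMap.fourier_coe]
  exact h

end Pool.Agent.T6.H42U
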